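import Mathlib

namespace Pool.Agent.H29.Chordal

/-- A graph is chordal if every cycle of length at least `4` has a chord. -/
def IsChordal {V : Type*} (G : SimpleGraph V) : Prop :=
  ∀ (v : V) (c : G.Walk v v), c.IsCycle → 4 ≤ c.length → ∃ e, c.IsChord e

/-- `D` is the maximum degree of `G`: no vertex has more than `D` neighbours, and some vertex has
exactly `D` neighbours. -/
def HasMaxDegree {V : Type*} (G : SimpleGraph V) (D : ℕ) : Prop :=
  (∀ v, (G.neighborSet v).ncard ≤ D) ∧ ∃ v, (G.neighborSet v).ncard = D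

/-- `f` is an `L(2,1)`-labelling of `G` with span `k`: a map to `{0, 1, …, k}` such that the labels
of adjacent vertices differ by at least `2` and the labels of vertices at distance two differ. -/
def IsL21Labelling {V : Type*} (G : SimpleGraph V) (k : ℕ) (f : V → ℕ) : Prop :=
  (∀ v, f v ≤ k) ∧ (∀ u v, G.Adj u v → f u + 2 ≤ f v ∨ f v + 2 ≤ f u) ∧
    ∀ u v, G.dist u v = 2 → f u ≠ f v

/-- The set of the numbers `λ_{2,1}(G)`, the least span of an `L(2,1)`-labelling of `G`, over all
finite chordal graphs `G` with maximum degree `D`. -/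
def chordalLambdas (D : ℕ) : Set ℕ :=
  {l | ∃ (n : ℕ) (G : SimpleGraph (Fin n)), IsChordal G ∧ HasMaxDegree G D ∧
    IsLeast {k | ∃ f, IsL21Labelling G k f} l}

end Pool.Agent.H29.Chordal
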