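import Mathlib

namespace Pool.Agent.H29.Chordal

open Finset

variable {V : Type*} [LinearOrder V] [Fintype V]

/-- The order is a perfect elimination order (read backwards): the smaller neighbours of each
vertex form a clique. -/
def IsPEO (G : SimpleGraph V) : Prop :=
  ∀ v u w, u < v → w < v → G.Adj v u → G.Adj v w → u ≠ w → G.Adj u w

open Classical in
/-- Smaller neighbours. -/
noncomputable def Pn (G : SimpleGraph V) (v : V) : Finset V :=
  univ.filter fun u => u < v ∧ G.Adj v u

lemma mem_Pn {G : SimpleGraph V} {v u : V} : u ∈ Pn G v ↔ u < v ∧ G.Adj v u := by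
  classical
  simp [Pn]

/-- `Par G w v`: `v` is the parent of `w`, the largest smaller neighbour. -/
def Par (G : SimpleGraph V) (w v : V) : Prop := v ∈ Pn G w ∧ ∀ u ∈ Pn G w, u ≤ v

lemma Par.unique {G : SimpleGraph V} {w v v' : V} (h : Par G w v) (h' : Par G w v') : v = v' :=
  le_antisymm (h'.2 v h.1) (h.2 v' h'.1)

lemma Par.lt {G : SimpleGraph V} {w v : V} (h : Par G w v) : v < w := (mem_Pn.mp h.1).1

/-- `Desc G w v`: `w` is a descendant of `v` (or equal). -/
def Desc (G : SimpleGraph V) (w v : V) : Prop := Relation.ReflTransGen (Par G) w v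

lemma Desc.refl {G : SimpleGraph V} (v : V) : Desc G v v := Relation.ReflTransGen.refl

lemma Desc.le {G : SimpleGraph V} {w v : V} (h : Desc G w v) : v ≤ w := by
  induction h with
  | refl => exact le_rfl
  | tail _ hp ih => exact hp.lt.le.trans ih

lemma Desc.trans {G : SimpleGraph V} {w v u : V} (h : Desc G w v) (h' : Desc G v u) : Desc G w u :=
  Relation.ReflTransGen.trans h h'

lemma Par.desc {G : SimpleGraph V} {w v : V} (h : Par G w v) : Desc G w v :=
  Relation.ReflTransGen.single h

lemma exists_par {G : SimpleGraph V} {w : V} (h : (Pn G w).Nonempty) : ∃ v, Par G w v :=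
  ⟨(Pn G w).max' h, (Pn G w).max'_mem h, fun u hu => (Pn G w).le_max' u hu⟩

/-- The smaller neighbours of `w` other than its parent are smaller neighbours of the parent. -/
lemma Par.sub {G : SimpleGraph V} (hG : IsPEO G) {w v u : V} (h : Par G w v) (hu : u ∈ Pn G w)
    (huv : u ≠ v) : u ∈ Pn G v := by
  have h1 := mem_Pn.mp h.1
  have h2 := mem_Pn.mp hu
  exact mem_Pn.mpr ⟨lt_of_le_of_ne (h.2 u hu) huv, hG w v u h1.1 h2.1 h1.2 h2.2 huv.symm⟩

/-- Smaller neighbours of a descendant of `v` are descendants of `v` or smaller neighbours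
of `v`. -/
lemma Desc.sub {G : SimpleGraph V} (hG : IsPEO G) {w v : V} (h : Desc G w v) :
    ∀ u ∈ Pn G w, Desc G u v ∨ u ∈ Pn G v := by
  induction h using Relation.ReflTransGen.head_induction_on with
  | refl => intro u hu; exact Or.inr hu
  | head hp hd ih =>
    rename_i a c
    intro u hu
    by_cases huc : u = c
    · subst huc; exact Or.inl hd
    · exact ih u (hp.sub hG hu huc)

/-- Every smaller neighbour is an ancestor. -/
lemma desc_of_mem_Pn {G : SimpleGraph V} (hG : IsPEO G) : ∀ z u : V, u ∈ Pn G z → Desc G z u := by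
  intro z
  induction z using WellFoundedLT.induction with
  | _ z ih =>
    intro u hu
    obtain ⟨w, hw⟩ := exists_par ⟨u, hu⟩
    by_cases huw : u = w
    · subst huw; exact hw.desc
    · exact hw.desc.trans (ih w hw.lt u (hw.sub hG hu huw))

/-- A neighbour of a descendant of `v` is a descendant of `v` or a smaller neighbour of `v`. -/
lemma Desc.adj {G : SimpleGraph V} (hG : IsPEO G) {w v z : V} (h : Desc G w v) (ha : G.Adj w z) :
    Desc G z v ∨ z ∈ Pn G v := by
  rcases lt_trichotomy z w with hz | hz | hz
  · exact h.sub hG z (mem_Pn.mpr ⟨hz, ha⟩)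
  · subst hz; exact Or.inl h
  · exact Or.inl ((desc_of_mem_Pn hG z w (mem_Pn.mpr ⟨hz, ha.symm⟩)).trans h)

/-- The children of `v` on the way to a proper descendant. -/
lemma Desc.exists_child {G : SimpleGraph V} {w v : V} (h : Desc G w v) (hne : w ≠ v) :
    ∃ c, Par G c v ∧ Desc G w c := by
  rcases Relation.ReflTransGen.cases_tail h with h | ⟨c, hc, hp⟩
  · exact absurd h.symm hne
  · exact ⟨c, hp, hc⟩

lemma child_unique {G : SimpleGraph V} {w v c c' : V} (hc : Par G c v) (hc' : Par G c' v)
    (h : Desc G w c) (h' : Desc G w c') : c = c' := by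
  have aux : ∀ c c' : V, Par G c v → Par G c' v → Desc G c c' → c = c' := by
    intro c c' hc hc' hd
    by_contra hne
    rcases Relation.ReflTransGen.cases_head hd with h | ⟨e, he, hd'⟩
    · exact hne h
    · have := he.unique hc
      subst this
      have h1 : c' ≤ e := Desc.le (G := G) hd'
      exact absurd hc'.lt (not_lt.mpr h1)
  have hru : Relator.RightUnique (Par G) := fun a b c hb hc => hb.unique hc
  rcases Relation.ReflTransGen.total_of_right_unique hru h h' with h1 | h1
  · exact aux c c' hc hc' h1
  · exact (aux c' c hc' hc h1).symm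

/-- Every vertex descends from a root. -/
lemma exists_root {G : SimpleGraph V} (w : V) : ∃ v, Desc G w v ∧ Pn G v = ∅ := by
  induction w using WellFoundedLT.induction with
  | _ w ih =>
    by_cases h : (Pn G w).Nonempty
    · obtain ⟨v, hv⟩ := exists_par h
      obtain ⟨u, hu, hu'⟩ := ih v hv.lt
      exact ⟨u, hv.desc.trans hu, hu'⟩
    · exact ⟨w, Desc.refl w, Finset.not_nonempty_iff_eq_empty.mp h⟩

end Pool.Agent.H29.Chordal
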