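import Mathlib
import Pool.Agent.H29.ChordalTree

namespace Pool.Agent.H29.Chordal

open Finset

lemma abstract_ineq {τ n a b s w : ℝ} (hn : 0 < n) (hτ : 0 ≤ τ) (ha : a ≤ n ^ 2)
    (hb : 0 ≤ b) (hs : 0 ≤ s) (h1 : τ * n ≤ n ^ 2 + s)
    (h2 : τ * n ≤ a + s + w) (hcs : s ^ 2 ≤ a * b) : τ ^ 2 ≤ a + 2 * s + b + w := by
  by_contra hcon
  push Not at hcon
  have h3 : s + b + τ * n < τ ^ 2 := by linarith
  rcases lt_or_ge τ n with h | h
  · nlinarith
  · have h4 : n * (τ - n) ≤ s := by nlinarith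
    have h5 : (n * (τ - n)) ^ 2 ≤ n ^ 2 * b := by
      have h6 : (n * (τ - n)) ^ 2 ≤ s ^ 2 :=
        pow_le_pow_left₀ (mul_nonneg hn.le (by linarith)) h4 2
      have h7 : a * b ≤ n ^ 2 * b := mul_le_mul_of_nonneg_right ha hb
      linarith
    have h6 : (τ - n) ^ 2 ≤ b := by
      rw [mul_pow] at h5
      exact le_of_mul_le_mul_left h5 (by positivity)
    nlinarith

/-- Adjacent or with a common neighbour. -/
def Near {V : Type*} (G : SimpleGraph V) (y z : V) : Prop :=
  G.Adj y z ∨ ∃ u, G.Adj y u ∧ G.Adj u z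

variable {V : Type*}

open Classical in
/-- The number of members of `Y` satisfying `p`. -/
noncomputable def cnt (Y : Finset V) (p : V → Prop) : ℝ := ((Y.filter p).card : ℝ)

lemma cnt_eq (Y : Finset V) (p : V → Prop) [DecidablePred p] :
    cnt Y p = ((Y.filter p).card : ℝ) := by
  unfold cnt
  congr

lemma cnt_nonneg (Y : Finset V) (p : V → Prop) : 0 ≤ cnt Y p := Nat.cast_nonneg _

lemma cnt_mono (Y : Finset V) {p q : V → Prop} (h : ∀ y ∈ Y, p y → q y) : cnt Y p ≤ cnt Y q := by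
  classical
  unfold cnt
  exact_mod_cast card_le_card fun y hy => by
    rw [mem_filter] at hy ⊢
    exact ⟨hy.1, h y hy.1 hy.2⟩

lemma cnt_congr (Y : Finset V) {p q : V → Prop} (h : ∀ y ∈ Y, (p y ↔ q y)) : cnt Y p = cnt Y q :=
  le_antisymm (cnt_mono Y fun y hy => (h y hy).mp) (cnt_mono Y fun y hy => (h y hy).mpr)

lemma cnt_or_le (Y : Finset V) (p q : V → Prop) :
    cnt Y (fun y => p y ∨ q y) ≤ cnt Y p + cnt Y q := by
  classical
  rw [cnt_eq, cnt_eq, cnt_eq, filter_or]
  exact_mod_cast card_union_le _ _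

lemma cnt_add (Y : Finset V) (p q : V → Prop) (h : ∀ y ∈ Y, ¬ (p y ∧ q y)) :
    cnt Y (fun y => p y ∨ q y) = cnt Y p + cnt Y q := by
  classical
  rw [cnt_eq, cnt_eq, cnt_eq, filter_or, card_union_of_disjoint]
  · push_cast; rfl
  · rw [Finset.disjoint_left]
    intro y h1 h2
    rw [mem_filter] at h1 h2
    exact h y h1.1 ⟨h1.2, h2.2⟩

lemma cnt_mem_le (Y K : Finset V) : cnt Y (fun y => y ∈ K) ≤ K.card := by
  classical
  rw [cnt_eq]
  exact_mod_cast card_le_card fun y hy => (mem_filter.mp hy).2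

/-- Membership in some `p u` with `u ∈ K`. -/
lemma cnt_exists_le (Y K : Finset V) (p : V → V → Prop) :
    cnt Y (fun z => ∃ u ∈ K, p u z) ≤ ∑ u ∈ K, cnt Y (p u) := by
  classical
  rw [cnt_eq]
  simp_rw [cnt_eq]
  have : Y.filter (fun z => ∃ u ∈ K, p u z) ⊆ K.biUnion fun u => Y.filter (p u) := by
    intro z hz
    rw [mem_filter] at hz
    obtain ⟨hz1, u, hu, hp⟩ := hz
    rw [mem_biUnion]
    exact ⟨u, hu, mem_filter.mpr ⟨hz1, hp⟩⟩
  exact_mod_cast (card_le_card this).trans card_biUnion_le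

open Classical in
/-- Double counting. -/
lemma sum_cnt (Y K : Finset V) (C : V → Prop) (G : SimpleGraph V) (f : V → ℝ) :
    ∑ y ∈ Y.filter C, ∑ u ∈ K.filter (fun u => G.Adj u y), f u =
      ∑ u ∈ K, cnt Y (fun y => C y ∧ G.Adj u y) * f u := by
  have h1 : ∀ y, ∑ u ∈ K.filter (fun u => G.Adj u y), f u =
      ∑ u ∈ K, if G.Adj u y then f u else 0 := fun y => sum_filter _ _
  simp_rw [h1]
  rw [sum_comm]
  apply sum_congr rfl
  intro u _
  rw [← sum_filter, filter_filter, sum_const, nsmul_eq_mul, cnt_eq]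

/-- The basic counting estimate for a set `C` whose outside neighbours lie in `K`. -/
lemma count_region (G : SimpleGraph V) (Y K : Finset V) (C : V → Prop)
    (hC : ∀ y, C y → ∀ z, G.Adj y z → C z ∨ z ∈ K) (T : ℝ)
    (hT : ∀ y ∈ Y, T ≤ cnt Y (fun z => z ≠ y ∧ Near G y z)) :
    (T - K.card + 1) * cnt Y C ≤ cnt Y C ^ 2 +
      ∑ u ∈ K, cnt Y (fun y => C y ∧ G.Adj u y) * cnt Y (fun z => z ∉ K ∧ ¬ C z ∧ G.Adj u z) := by
  classical
  have key : ∀ y ∈ Y.filter C, T ≤ K.card + (cnt Y C - 1) +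
      ∑ u ∈ K.filter (fun u => G.Adj u y), cnt Y (fun z => z ∉ K ∧ ¬ C z ∧ G.Adj u z) := by
    intro y hy
    rw [mem_filter] at hy
    refine (hT y hy.1).trans ?_
    have h1 : cnt Y (fun z => z ≠ y ∧ Near G y z) ≤
        cnt Y (fun z => (z ∈ K ∨ (C z ∧ z ≠ y)) ∨
          ∃ u ∈ K.filter (fun u => G.Adj u y), z ∉ K ∧ ¬ C z ∧ G.Adj u z) := by
      apply cnt_mono
      intro z _ hz
      by_cases hzK : z ∈ K
      · exact Or.inl (Or.inl hzK)
      by_cases hzC : C z
      · exact Or.inl (Or.inr ⟨hzC, hz.1⟩)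
      right
      rcases hz.2 with h | ⟨u, hyu, huz⟩
      · rcases hC y hy.2 z h with h | h
        · exact absurd h hzC
        · exact absurd h hzK
      · rcases hC y hy.2 u hyu with h | h
        · rcases hC u h z huz with h | h
          · exact absurd h hzC
          · exact absurd h hzK
        · exact ⟨u, mem_filter.mpr ⟨h, hyu.symm⟩, hzK, hzC, huz⟩
    have h2 : cnt Y (fun z => C z ∧ z ≠ y) = cnt Y C - 1 := by
      have h3 : cnt Y C = cnt Y (fun z => (C z ∧ z ≠ y) ∨ z = y) := by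
        apply cnt_congr
        intro z _
        constructor
        · intro h
          by_cases hzy : z = y
          · exact Or.inr hzy
          · exact Or.inl ⟨h, hzy⟩
        · rintro (h | h)
          · exact h.1
          · rw [h]; exact hy.2
      rw [h3, cnt_add _ _ _ (by rintro z _ ⟨h, h'⟩; exact h.2 h')]
      have h4 : cnt Y (fun z => z = y) = 1 := by
        unfold cnt
        have : Y.filter (fun z => z = y) = {y} := by
          ext z
          rw [mem_filter, mem_singleton]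
          exact ⟨fun h => h.2, fun h => ⟨h ▸ hy.1, h⟩⟩
        rw [this]; simp
      rw [h4]; ring
    refine h1.trans ((cnt_or_le _ _ _).trans ?_)
    refine add_le_add ((cnt_or_le _ _ _).trans ?_) (cnt_exists_le _ _ _)
    rw [h2]
    exact add_le_add (cnt_mem_le _ _) le_rfl
  have hsum := sum_le_sum key
  rw [sum_const, sum_add_distrib, sum_const, sum_cnt, nsmul_eq_mul, nsmul_eq_mul] at hsum
  have hc : ((Y.filter C).card : ℝ) = cnt Y C := by
    unfold cnt; congr
  rw [hc] at hsum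
  linarith

end Pool.Agent.H29.Chordal
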