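import Mathlib
import Pool.Agent.H29.ChordalTree
import Pool.Agent.H29.ChordalIneq

namespace Pool.Agent.H29.Chordal

open Finset

lemma cnt_exists_eq {V ι : Type*} (Y : Finset V) (K : Finset ι) (p : ι → V → Prop)
    (h : ∀ y ∈ Y, ∀ c ∈ K, ∀ c' ∈ K, p c y → p c' y → c = c') :
    cnt Y (fun z => ∃ u ∈ K, p u z) = ∑ u ∈ K, cnt Y (p u) := by
  classical
  rw [cnt_eq]
  simp_rw [cnt_eq]
  have : Y.filter (fun z => ∃ u ∈ K, p u z) = K.biUnion fun u => Y.filter (p u) := by
    ext z
    simp only [mem_filter, mem_biUnion]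
    constructor
    · rintro ⟨hz, u, hu, hp⟩; exact ⟨u, hu, hz, hp⟩
    · rintro ⟨u, hu, hz, hp⟩; exact ⟨hz, u, hu, hp⟩
  rw [this, card_biUnion]
  · push_cast; rfl
  · intro c hc c' hc' hne
    change Disjoint (Y.filter (p c)) (Y.filter (p c'))
    rw [Finset.disjoint_left]
    intro y h1 h2
    rw [mem_filter] at h1 h2
    exact hne (h y h1.1 c hc c' hc' h1.2 h2.2)

lemma sum_sq_shift {ι : Type*} (s : Finset ι) (x : ι → ℝ) (hx : ∀ i ∈ s, 0 ≤ x i) {n δ : ℝ}
    (hn : 0 ≤ n) (hδ : δ = 0 ∨ δ = 1) (h : ∑ i ∈ s, (x i + δ) ^ 2 < (n + δ) ^ 2) :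
    ∑ i ∈ s, x i ^ 2 ≤ n ^ 2 := by
  rcases hδ with rfl | rfl
  · simp only [add_zero] at h; exact h.le
  · rcases s.eq_empty_or_nonempty with rfl | hs
    · simp; positivity
    · by_contra hcon
      push Not at hcon
      have h1 : ∑ i ∈ s, x i ^ 2 ≤ (∑ i ∈ s, x i) ^ 2 := by
        rw [sq (∑ i ∈ s, x i), sum_mul]
        apply sum_le_sum
        intro i hi
        rw [sq]
        exact mul_le_mul_of_nonneg_left (single_le_sum hx hi) (hx i hi)
      have h0 : 0 ≤ ∑ i ∈ s, x i := sum_nonneg hx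
      have h2 : n < ∑ i ∈ s, x i := lt_of_pow_lt_pow_left₀ 2 h0 (lt_of_lt_of_le hcon h1)
      have h3 : ∑ i ∈ s, (x i + 1) ^ 2 = ∑ i ∈ s, x i ^ 2 + 2 * ∑ i ∈ s, x i + s.card := by
        rw [mul_sum, card_eq_sum_ones, Nat.cast_sum, ← sum_add_distrib, ← sum_add_distrib]
        apply sum_congr rfl
        intro i _
        push_cast; ring
      have h4 : (1 : ℝ) ≤ s.card := by exact_mod_cast hs.card_pos
      rw [h3] at h
      nlinarith

variable {V : Type*} [LinearOrder V] [Fintype V]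

/-- The square of a chordal graph is degenerate with a sharp constant. -/
theorem degen (G : SimpleGraph V) (hG : IsPEO G) (Δ : ℕ)
    (hΔ : ∀ u, (G.neighborSet u).ncard ≤ Δ) (Y : Finset V) (hY : Y.Nonempty) (T : ℝ)
    (hT : ∀ y ∈ Y, T ≤ cnt Y (fun z => z ≠ y ∧ Near G y z)) :
    ∃ k : ℕ, 1 ≤ k ∧ k ≤ Δ + 1 ∧ T ≤ ((k : ℝ) - 1) + √k * ((Δ : ℝ) + 1 - k) := by
  classical
  -- the critical vertex
  set Bad : V → Prop := fun v => ∑ u ∈ Pn G v, cnt Y (fun y => Desc G y v ∧ G.Adj u y) ^ 2 <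
    cnt Y (fun y => Desc G y v) ^ 2 with hBad
  have hex : (univ.filter Bad).Nonempty := by
    obtain ⟨y, hy⟩ := hY
    obtain ⟨r, hr, hr'⟩ := exists_root (G := G) y
    refine ⟨r, mem_filter.mpr ⟨mem_univ _, ?_⟩⟩
    simp only [hBad]
    rw [hr', sum_empty]
    have : 0 < cnt Y (fun y => Desc G y r) := by
      rw [cnt_eq]
      exact_mod_cast card_pos.mpr ⟨y, mem_filter.mpr ⟨hy, hr⟩⟩
    positivity
  obtain ⟨v, hv, hmax⟩ : ∃ v, Bad v ∧ ∀ c, v < c → ¬ Bad c := by
    refine ⟨(univ.filter Bad).max' hex, (mem_filter.mp (max'_mem _ hex)).2, ?_⟩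
    intro c hc hbad
    exact absurd (le_max' _ c (mem_filter.mpr ⟨mem_univ _, hbad⟩)) (not_le.mpr hc)
  obtain ⟨K, hK⟩ : ∃ K, K = insert v (Pn G v) := ⟨_, rfl⟩
  have hvP : v ∉ Pn G v := fun h => absurd (mem_Pn.mp h).1 (lt_irrefl _)
  have hvK : v ∈ K := by rw [hK]; exact mem_insert_self _ _
  have hPK : Pn G v ⊆ K := by rw [hK]; exact subset_insert _ _
  have hKle : ∀ u ∈ K, u ≤ v := by
    intro u hu
    rw [hK, mem_insert] at hu
    rcases hu with rfl | hu
    · exact le_rfl
    · exact (mem_Pn.mp hu).1.le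
  have hclique : ∀ u ∈ K, ∀ w ∈ K, u ≠ w → G.Adj u w := by
    intro u hu w hw hne
    rw [hK, mem_insert] at hu hw
    rcases hu with rfl | hu <;> rcases hw with rfl | hw
    · exact absurd rfl hne
    · exact (mem_Pn.mp hw).2
    · exact (mem_Pn.mp hu).2.symm
    · exact hG v u w (mem_Pn.mp hu).1 (mem_Pn.mp hw).1 (mem_Pn.mp hu).2 (mem_Pn.mp hw).2 hne
  have hk1 : 1 ≤ K.card := card_pos.mpr ⟨v, hvK⟩
  set tot : V → ℝ := fun u => cnt Y (fun z => z ∉ K ∧ G.Adj u z) with htot
  have htotle : ∀ u ∈ K, tot u ≤ (Δ : ℝ) + 1 - K.card := by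
    intro u hu
    have h1 : (Y.filter (fun z => z ∉ K ∧ G.Adj u z) ∪ K.erase u).card ≤ Δ := by
      refine le_trans ?_ (hΔ u)
      rw [← Set.ncard_coe_finset]
      apply Set.ncard_le_ncard _ (Set.toFinite _)
      intro z hz
      rw [mem_coe, mem_union, mem_filter, mem_erase] at hz
      rcases hz with hz | hz
      · exact hz.2.2
      · exact hclique u hu z hz.2 hz.1.symm
    rw [card_union_of_disjoint, card_erase_of_mem hu] at h1
    · simp only [htot]
      rw [cnt_eq]
      have h2 : (Y.filter (fun z => z ∉ K ∧ G.Adj u z)).card + K.card ≤ Δ + 1 := by omega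
      have : ((Y.filter (fun z => z ∉ K ∧ G.Adj u z)).card : ℝ) + K.card ≤ (Δ : ℝ) + 1 := by
        exact_mod_cast h2
      linarith
    · rw [Finset.disjoint_left]
      intro z h1 h2
      exact (mem_filter.mp h1).2.1 (mem_erase.mp h2).2
  have htot0 : ∀ u, 0 ≤ tot u := fun u => cnt_nonneg _ _
  have hkΔ : K.card ≤ Δ + 1 := by
    have := (htot0 v).trans (htotle v hvK)
    have : (K.card : ℝ) ≤ (Δ : ℝ) + 1 := by linarith
    exact_mod_cast this
  have hkΔ' : (0 : ℝ) ≤ (Δ : ℝ) + 1 - K.card := (htot0 v).trans (htotle v hvK)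
  refine ⟨K.card, hk1, hkΔ, ?_⟩
  -- children
  set Ch : Finset V := univ.filter (fun c => Par G c v) with hCh
  set Cs : V → Prop := fun y => Desc G y v ∧ y ≠ v with hCs
  have hpart : ∀ q : V → Prop, cnt Y (fun y => Cs y ∧ q y) =
      ∑ c ∈ Ch, cnt Y (fun y => Desc G y c ∧ q y) := by
    intro q
    rw [← cnt_exists_eq Y Ch (fun c y => Desc G y c ∧ q y)]
    · apply cnt_congr
      intro y _
      constructor
      · rintro ⟨⟨h1, h2⟩, h3⟩
        obtain ⟨c, hc, hd⟩ := h1.exists_child h2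
        exact ⟨c, mem_filter.mpr ⟨mem_univ _, hc⟩, hd, h3⟩
      · rintro ⟨c, hc, hd, h3⟩
        have hc' := (mem_filter.mp hc).2
        refine ⟨⟨hd.trans hc'.desc, ?_⟩, h3⟩
        exact (lt_of_lt_of_le hc'.lt hd.le).ne'
    · intro y _ c hc c' hc' h1 h2
      exact child_unique (mem_filter.mp hc).2 (mem_filter.mp hc').2 h1.1 h2.1
  set x : V → ℝ := fun u => cnt Y (fun y => Cs y ∧ G.Adj u y) with hx
  set e : V → ℝ := fun u => cnt Y (fun z => z ∉ K ∧ ¬ Cs z ∧ G.Adj u z) with he
  obtain ⟨n, hn⟩ : ∃ n, n = cnt Y Cs := ⟨_, rfl⟩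
  have hn0 : 0 ≤ n := by rw [hn]; exact cnt_nonneg _ _
  have hx0 : ∀ u, 0 ≤ x u := fun u => cnt_nonneg _ _
  have he0 : ∀ u, 0 ≤ e u := fun u => cnt_nonneg _ _
  have hnotK : ∀ z, Cs z → z ∉ K := by
    intro z hz hzK
    have h1 : v < z := lt_of_le_of_ne hz.1.le hz.2.symm
    exact absurd (hKle z hzK) (not_le.mpr h1)
  have htot_eq : ∀ u, tot u = x u + e u := by
    intro u
    simp only [htot, hx, he]
    rw [← cnt_add]
    · apply cnt_congr
      intro z _
      constructor
      · rintro ⟨h1, h2⟩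
        by_cases h3 : Cs z
        · exact Or.inl ⟨h3, h2⟩
        · exact Or.inr ⟨h1, h3, h2⟩
      · rintro (⟨h1, h2⟩ | ⟨h1, h2, h3⟩)
        · exact ⟨hnotK z h1, h2⟩
        · exact ⟨h1, h3⟩
    · rintro z _ ⟨h1, h2⟩
      exact h2.2.1 h1.1
  have hev : e v = 0 := by
    simp only [he]
    have : cnt Y (fun z => z ∉ K ∧ ¬ Cs z ∧ G.Adj v z) = cnt Y (fun _ => False) := by
      apply cnt_congr
      intro z _
      refine ⟨?_, False.elim⟩
      rintro ⟨h1, h2, h3⟩
      rcases (Desc.refl v).adj hG h3 with h | h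
      · exact h2 ⟨h, fun h' => h1 (h' ▸ hvK)⟩
      · exact h1 (hPK h)
    rw [this, cnt_eq]
    simp
  obtain ⟨τ, hτ⟩ : ∃ τ, τ = T - K.card + 1 := ⟨_, rfl⟩
  -- inequality (1)
  have ineq1 : τ * n ≤ n ^ 2 + ∑ u ∈ K, x u * e u := by
    rw [hτ, hn]
    apply count_region G Y K Cs _ T hT
    intro y hy z hyz
    rcases hy.1.adj hG hyz with h | h
    · by_cases hzv : z = v
      · right; rw [hzv]; exact hvK
      · left; exact ⟨h, hzv⟩
    · right; exact hPK h
  -- inequality (2)
  have ineq2 : τ * n ≤ ∑ u ∈ K, x u * tot u := by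
    have hnsum : n = ∑ c ∈ Ch, cnt Y (fun y => Desc G y c) := by
      have := hpart (fun _ => True)
      simp only [and_true] at this
      rw [hn]; exact this
    have hxsum : ∀ u, x u = ∑ c ∈ Ch, cnt Y (fun y => Desc G y c ∧ G.Adj u y) := by
      intro u; exact hpart (fun y => G.Adj u y)
    have hc : ∀ c ∈ Ch, τ * cnt Y (fun y => Desc G y c) ≤
        ∑ u ∈ K, cnt Y (fun y => Desc G y c ∧ G.Adj u y) * tot u := by
      intro c hc
      have hcv := (mem_filter.mp hc).2
      have hPc : Pn G c ⊆ K := by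
        intro u hu
        by_cases huv : u = v
        · rw [huv]; exact hvK
        · exact hPK (hcv.sub hG hu huv)
      have hreg := count_region G Y K (fun y => Desc G y c) (by
        intro y hy z hyz
        rcases hy.adj hG hyz with h | h
        · exact Or.inl h
        · exact Or.inr (hPc h)) T hT
      rw [← hτ] at hreg
      have hnb := hmax c hcv.lt
      simp only [hBad, not_lt] at hnb
      have hle : ∑ u ∈ Pn G c, cnt Y (fun y => Desc G y c ∧ G.Adj u y) ^ 2 ≤
          ∑ u ∈ K, cnt Y (fun y => Desc G y c ∧ G.Adj u y) ^ 2 :=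
        sum_le_sum_of_subset_of_nonneg hPc fun u _ _ => sq_nonneg _
      have hsplit : ∀ u, tot u = cnt Y (fun y => Desc G y c ∧ G.Adj u y) +
          cnt Y (fun z => z ∉ K ∧ ¬ Desc G z c ∧ G.Adj u z) := by
        intro u
        simp only [htot]
        rw [← cnt_add]
        · apply cnt_congr
          intro z _
          constructor
          · rintro ⟨h1, h2⟩
            by_cases h3 : Desc G z c
            · exact Or.inl ⟨h3, h2⟩
            · exact Or.inr ⟨h1, h3, h2⟩
          · rintro (⟨h1, h2⟩ | ⟨h1, h2, h3⟩)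
            · refine ⟨fun hzK => ?_, h2⟩
              exact absurd (hKle z hzK) (not_le.mpr (lt_of_lt_of_le hcv.lt h1.le))
            · exact ⟨h1, h3⟩
        · rintro z _ ⟨h1, h2⟩
          exact h2.2.1 h1.1
      have hfin : ∑ u ∈ K, cnt Y (fun y => Desc G y c ∧ G.Adj u y) * tot u =
          ∑ u ∈ K, cnt Y (fun y => Desc G y c ∧ G.Adj u y) ^ 2 +
          ∑ u ∈ K, cnt Y (fun y => Desc G y c ∧ G.Adj u y) *
            cnt Y (fun z => z ∉ K ∧ ¬ Desc G z c ∧ G.Adj u z) := by
        rw [← sum_add_distrib]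
        apply sum_congr rfl
        intro u _
        rw [hsplit u]; ring
      rw [hfin]
      linarith
    have hsum := sum_le_sum hc
    rw [← mul_sum, ← hnsum, sum_comm] at hsum
    refine hsum.trans (le_of_eq ?_)
    apply sum_congr rfl
    intro u _
    rw [hxsum u, sum_mul]
  -- splitting off `v`
  have hKsum : ∀ f : V → ℝ, ∑ u ∈ K, f u = f v + ∑ u ∈ Pn G v, f u := by
    intro f
    rw [hK, sum_insert hvP]
  set a : ℝ := ∑ u ∈ Pn G v, x u ^ 2 with ha
  set b : ℝ := ∑ u ∈ Pn G v, e u ^ 2 with hb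
  set s : ℝ := ∑ u ∈ Pn G v, x u * e u with hs
  have hb0 : 0 ≤ b := sum_nonneg fun u _ => sq_nonneg _
  have hs0 : 0 ≤ s := sum_nonneg fun u _ => mul_nonneg (hx0 u) (he0 u)
  have hcs : s ^ 2 ≤ a * b := sum_mul_sq_le_sq_mul_sq _ _ _
  have h1 : τ * n ≤ n ^ 2 + s := by
    rw [hKsum, hev, mul_zero, zero_add] at ineq1
    exact ineq1
  have h2 : τ * n ≤ a + s + x v ^ 2 := by
    rw [hKsum, htot_eq v, hev, add_zero] at ineq2
    have : ∑ u ∈ Pn G v, x u * tot u = a + s := by
      rw [ha, hs, ← sum_add_distrib]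
      apply sum_congr rfl
      intro u _
      rw [htot_eq u]; ring
    rw [this] at ineq2
    linarith
  -- the critical vertex: `a ≤ n ^ 2`
  obtain ⟨δ, hδ⟩ : ∃ δ, δ = cnt Y (fun y => y = v) := ⟨_, rfl⟩
  have hδ01 : δ = 0 ∨ δ = 1 := by
    rw [hδ, cnt_eq]
    by_cases hvY : v ∈ Y
    · right
      have : Y.filter (fun z => z = v) = {v} := by
        ext z
        rw [mem_filter, mem_singleton]
        exact ⟨fun h => h.2, fun h => ⟨h ▸ hvY, h⟩⟩
      rw [this]; simp
    · left
      have : Y.filter (fun z => z = v) = ∅ := by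
        ext z
        rw [mem_filter]
        constructor
        · rintro ⟨h1, h2⟩; exact absurd (h2 ▸ h1) hvY
        · intro h; simp at h
      rw [this]; simp
  have hnd : cnt Y (fun y => Desc G y v) = n + δ := by
    rw [hn, hδ, ← cnt_add]
    · apply cnt_congr
      intro y _
      constructor
      · intro h
        by_cases hyv : y = v
        · exact Or.inr hyv
        · exact Or.inl ⟨h, hyv⟩
      · rintro (h | h)
        · exact h.1
        · rw [h]; exact Desc.refl v
    · rintro y _ ⟨h1, h2⟩; exact h1.2 h2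
  have hxd : ∀ u ∈ Pn G v, cnt Y (fun y => Desc G y v ∧ G.Adj u y) = x u + δ := by
    intro u hu
    simp only [hx]
    rw [hδ, ← cnt_add]
    · apply cnt_congr
      intro y _
      constructor
      · rintro ⟨h1, h2⟩
        by_cases hyv : y = v
        · exact Or.inr hyv
        · exact Or.inl ⟨⟨h1, hyv⟩, h2⟩
      · rintro (h | h)
        · exact ⟨h.1.1, h.2⟩
        · rw [h]; exact ⟨Desc.refl v, (mem_Pn.mp hu).2.symm⟩
    · rintro y _ ⟨h1, h2⟩; exact h1.1.2 h2
  have hbadv : ∑ u ∈ Pn G v, (x u + δ) ^ 2 < (n + δ) ^ 2 := by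
    have := hv
    simp only [hBad] at this
    rw [hnd] at this
    refine lt_of_le_of_lt (le_of_eq ?_) this
    apply sum_congr rfl
    intro u hu
    rw [hxd u hu]
  have han : a ≤ n ^ 2 := sum_sq_shift _ x (fun u _ => hx0 u) hn0 hδ01 hbadv
  have hsq : 0 ≤ √(K.card : ℝ) * ((Δ : ℝ) + 1 - K.card) := mul_nonneg (Real.sqrt_nonneg _) hkΔ'
  rcases hn0.eq_or_lt with hn00 | hnpos
  · -- no proper descendants in `Y`
    have hvY : v ∈ Y ∧ Pn G v = ∅ := by
      rw [← hn00, zero_add] at hbadv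
      have h3 : 0 ≤ ∑ u ∈ Pn G v, (x u + δ) ^ 2 := sum_nonneg fun u _ => sq_nonneg _
      have hδ1 : δ = 1 := by
        rcases hδ01 with h | h
        · rw [h] at hbadv h3; simp only [add_zero] at hbadv h3; norm_num at hbadv; linarith
        · exact h
      constructor
      · by_contra hvY
        have : cnt Y (fun y => y = v) = 0 := by
          rw [cnt_eq]
          have : Y.filter (fun z => z = v) = ∅ := by
            ext z
            rw [mem_filter]
            constructor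
            · rintro ⟨h1, h2⟩; exact absurd (h2 ▸ h1) hvY
            · intro h; simp at h
          rw [this]; simp
        rw [this] at hδ
        rw [hδ] at hδ1
        norm_num at hδ1
      · by_contra hne
        obtain ⟨u, hu⟩ := Finset.nonempty_iff_ne_empty.mpr hne
        have h4 : (x u + δ) ^ 2 ≤ ∑ u ∈ Pn G v, (x u + δ) ^ 2 :=
          single_le_sum (f := fun u => (x u + δ) ^ 2) (fun u _ => sq_nonneg _) hu
        rw [hδ1] at h4 hbadv
        have := hx0 u
        nlinarith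
    have hT0 : T ≤ 0 := by
      refine (hT v hvY.1).trans ?_
      rw [hn00, hn]
      apply cnt_mono
      intro z _ hz
      have hstep : ∀ y z, Desc G y v → G.Adj y z → Desc G z v := by
        intro y z hy hyz
        rcases hy.adj hG hyz with h | h
        · exact h
        · rw [hvY.2] at h; simp at h
      refine ⟨?_, hz.1⟩
      rcases hz.2 with h | ⟨u, hvu, huz⟩
      · exact hstep v z (Desc.refl v) h
      · exact hstep u z (hstep v u (Desc.refl v) hvu) huz
    have hk1' : (1 : ℝ) ≤ K.card := by exact_mod_cast hk1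
    linarith
  · rcases le_or_gt τ 0 with hτ0 | hτ0
    · rw [hτ] at hτ0; linarith
    · have hmain := abstract_ineq hnpos hτ0.le han hb0 hs0 h1 h2 hcs
      have hfinal : a + 2 * s + b + x v ^ 2 = ∑ u ∈ K, tot u ^ 2 := by
        rw [hKsum, htot_eq v, hev, add_zero, ha, hs, hb, mul_sum, ← sum_add_distrib,
          ← sum_add_distrib, add_comm]
        congr 1
        apply sum_congr rfl
        intro u _
        rw [htot_eq u]; ring
      rw [hfinal] at hmain
      have hbound : ∑ u ∈ K, tot u ^ 2 ≤ K.card * ((Δ : ℝ) + 1 - K.card) ^ 2 := by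
        rw [← nsmul_eq_mul, ← sum_const]
        apply sum_le_sum
        intro u hu
        exact pow_le_pow_left₀ (htot0 u) (htotle u hu) 2
      have h5 : τ ≤ √(K.card : ℝ) * ((Δ : ℝ) + 1 - K.card) := by
        apply le_of_sq_le_sq _ hsq
        rw [mul_pow, Real.sq_sqrt (Nat.cast_nonneg _)]
        exact hmain.trans hbound
      rw [hτ] at h5
      linarith

end Pool.Agent.H29.Chordal
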