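import Mathlib
import Pool.Agent.H29.ChordalDefs
import Pool.Agent.H29.ChordalDegen

namespace Pool.Agent.H29.Chordal

open Finset

lemma near_of_dist {V : Type*} {G : SimpleGraph V} {u v : V} (h : G.dist u v = 2) : Near G u v := by
  obtain ⟨p, hp⟩ := SimpleGraph.exists_walk_of_dist_ne_zero (G := G) (u := u) (v := v) (by omega)
  rw [h] at hp
  right
  match p, hp with
  | .cons h1 (.cons h2 .nil), _ => exact ⟨_, h1, h2⟩

lemma Near.symm {V : Type*} {G : SimpleGraph V} {u v : V} (h : Near G u v) : Near G v u := by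
  rcases h with h | ⟨w, h1, h2⟩
  · exact Or.inl h.symm
  · exact Or.inr ⟨w, h2.symm, h1.symm⟩

/-- Greedy `L(2,1)`-labelling. -/
theorem exists_labelling {V : Type*} [Finite V] (G : SimpleGraph V) (N Δ : ℕ)
    (hΔ : ∀ u, (G.neighborSet u).ncard ≤ Δ)
    (hdeg : ∀ Y : Finset V, Y.Nonempty → ∃ y ∈ Y, cnt Y (fun z => z ≠ y ∧ Near G y z) ≤ N) :
    ∃ f, IsL21Labelling G (N + 2 * Δ) f := by
  classical
  have := Fintype.ofFinite V
  have key : ∀ n : ℕ, ∀ Y : Finset V, Y.card = n → ∃ f : V → ℕ, (∀ v, f v ≤ N + 2 * Δ) ∧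
      (∀ u ∈ Y, ∀ v ∈ Y, G.Adj u v → f u + 2 ≤ f v ∨ f v + 2 ≤ f u) ∧
      ∀ u ∈ Y, ∀ v ∈ Y, G.dist u v = 2 → f u ≠ f v := by
    intro n
    induction n with
    | zero =>
      intro Y hY
      rw [card_eq_zero] at hY
      subst hY
      exact ⟨fun _ => 0, fun _ => Nat.zero_le _, by simp, by simp⟩
    | succ n ih =>
      intro Y hY
      obtain ⟨y, hy, hycnt⟩ := hdeg Y (card_pos.mp (by omega))
      obtain ⟨f, hf1, hf2, hf3⟩ := ih (Y.erase y) (by rw [card_erase_of_mem hy]; omega)
      -- forbidden labels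
      set A : Finset V := Y.filter (fun z => z ≠ y ∧ Near G y z) with hA
      set B : Finset V := Y.filter (fun z => G.Adj y z) with hB
      have hAcard : A.card ≤ N := by
        rw [cnt_eq] at hycnt
        exact_mod_cast hycnt
      have hBcard : B.card ≤ Δ := by
        refine le_trans ?_ (hΔ y)
        rw [← Set.ncard_coe_finset]
        apply Set.ncard_le_ncard _ (Set.toFinite _)
        intro z hz
        rw [mem_coe, mem_filter] at hz
        exact hz.2
      set F : Finset ℕ := A.image f ∪ (B.image (fun z => f z + 1) ∪ B.image (fun z => f z - 1))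
        with hF
      have hFcard : F.card < (range (N + 2 * Δ + 1)).card := by
        rw [card_range]
        have h1 := card_union_le (A.image f) (B.image (fun z => f z + 1) ∪ B.image (fun z => f z - 1))
        have h2 := card_union_le (B.image (fun z => f z + 1)) (B.image (fun z => f z - 1))
        have h3 := card_image_le (s := A) (f := f)
        have h4 := card_image_le (s := B) (f := fun z => f z + 1)
        have h5 := card_image_le (s := B) (f := fun z => f z - 1)
        have h6 : F.card = (A.image f ∪ (B.image (fun z => f z + 1) ∪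
          B.image (fun z => f z - 1))).card := by rw [hF]
        omega
      obtain ⟨l, hl1, hl2⟩ := exists_mem_notMem_of_card_lt_card hFcard
      rw [mem_range] at hl1
      have hlA : ∀ z ∈ Y, z ≠ y → Near G y z → l ≠ f z := by
        intro z hz hzy hn h
        apply hl2
        rw [hF, mem_union, mem_image]
        exact Or.inl ⟨z, mem_filter.mpr ⟨hz, hzy, hn⟩, h.symm⟩
      have hlB : ∀ z ∈ Y, G.Adj y z → l ≠ f z + 1 ∧ l ≠ f z - 1 := by
        intro z hz hadj
        constructor
        · intro h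
          apply hl2
          rw [hF, mem_union, mem_union]
          exact Or.inr (Or.inl (mem_image.mpr ⟨z, mem_filter.mpr ⟨hz, hadj⟩, h.symm⟩))
        · intro h
          apply hl2
          rw [hF, mem_union, mem_union]
          exact Or.inr (Or.inr (mem_image.mpr ⟨z, mem_filter.mpr ⟨hz, hadj⟩, h.symm⟩))
      have hlAdj : ∀ z ∈ Y, G.Adj y z → l + 2 ≤ f z ∨ f z + 2 ≤ l := by
        intro z hz hadj
        have h1 := hlA z hz hadj.ne' (Or.inl hadj)
        have h2 := hlB z hz hadj
        omega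
      refine ⟨Function.update f y l, ?_, ?_, ?_⟩
      · intro v
        by_cases hv : v = y
        · subst hv; rw [Function.update_self]; omega
        · rw [Function.update_of_ne hv]; exact hf1 v
      · intro u hu v hv hadj
        by_cases huy : u = y
        · subst huy
          rw [Function.update_self, Function.update_of_ne hadj.ne']
          exact hlAdj v hv hadj
        · by_cases hvy : v = y
          · subst hvy
            rw [Function.update_self, Function.update_of_ne huy]
            exact (hlAdj u hu hadj.symm).symm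
          · rw [Function.update_of_ne huy, Function.update_of_ne hvy]
            exact hf2 u (mem_erase.mpr ⟨huy, hu⟩) v (mem_erase.mpr ⟨hvy, hv⟩) hadj
      · intro u hu v hv hd
        have hne : u ≠ v := by
          rintro rfl
          simp at hd
        by_cases huy : u = y
        · subst huy
          rw [Function.update_self, Function.update_of_ne hne.symm]
          exact hlA v hv hne.symm (near_of_dist hd)
        · by_cases hvy : v = y
          · subst hvy
            rw [Function.update_self, Function.update_of_ne huy]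
            exact (hlA u hu huy (near_of_dist hd).symm).symm
          · rw [Function.update_of_ne huy, Function.update_of_ne hvy]
            exact hf3 u (mem_erase.mpr ⟨huy, hu⟩) v (mem_erase.mpr ⟨hvy, hv⟩) hd
  obtain ⟨f, hf1, hf2, hf3⟩ := key _ univ rfl
  exact ⟨f, hf1, fun u v h => hf2 u (mem_univ _) v (mem_univ _) h,
    fun u v h => hf3 u (mem_univ _) v (mem_univ _) h⟩

lemma sqrt_mul_le {k M : ℝ} (hk : 0 ≤ k) (hM : 0 ≤ M) :
    √k * (M - k) ≤ 2 / (3 * √3) * M ^ (3 / 2 : ℝ) := by
  obtain ⟨s, hs⟩ : ∃ s, s = √k := ⟨_, rfl⟩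
  obtain ⟨r, hr⟩ : ∃ r, r = √M := ⟨_, rfl⟩
  obtain ⟨q, hq⟩ : ∃ q, q = √(3 : ℝ) := ⟨_, rfl⟩
  have hs0 : 0 ≤ s := by rw [hs]; positivity
  have hr0 : 0 ≤ r := by rw [hr]; positivity
  have hq0 : 0 < q := by rw [hq]; positivity
  have hs2 : s ^ 2 = k := by rw [hs, Real.sq_sqrt hk]
  have hr2 : r ^ 2 = M := by rw [hr, Real.sq_sqrt hM]
  have hq2 : q ^ 2 = 3 := by rw [hq, Real.sq_sqrt (by norm_num)]
  have hr3 : M ^ (3 / 2 : ℝ) = r ^ 3 := by
    rw [← hr2, ← Real.rpow_natCast r 2, ← Real.rpow_mul hr0, ← Real.rpow_natCast r 3]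
    norm_num
  rw [← hs, ← hq, hr3, ← hs2, ← hr2]
  have h1 : 0 ≤ (r / q - s) ^ 2 * (2 * (r / q) + s) := by positivity
  have h2 : (r / q - s) ^ 2 * (2 * (r / q) + s) =
      2 / (3 * q) * r ^ 3 - s * (r ^ 2 - s ^ 2) := by
    have : (r / q) ^ 2 = r ^ 2 / 3 := by rw [div_pow, hq2]
    have h3 : 2 / (3 * q) * r ^ 3 = 2 * (r / q) * (r / q) ^ 2 := by
      rw [this]; field_simp
    rw [h3]
    linear_combination (-3 * s) * this
  linarith

/-- Upper bound for vertex-ordered graphs. -/
theorem upper_of_peo {V : Type*} [LinearOrder V] [Fintype V] (G : SimpleGraph V) (hG : IsPEO G)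
    (Δ : ℕ) (hΔ : ∀ u, (G.neighborSet u).ncard ≤ Δ) :
    ∃ k f, IsL21Labelling G k f ∧
      (k : ℝ) ≤ 2 / (3 * √3) * ((Δ : ℝ) + 1) ^ (3 / 2 : ℝ) + 3 * Δ := by
  classical
  obtain ⟨B, hB⟩ : ∃ B : ℝ, B = 2 / (3 * √3) * ((Δ : ℝ) + 1) ^ (3 / 2 : ℝ) + Δ := ⟨_, rfl⟩
  have hB0 : 0 ≤ B := by rw [hB]; positivity
  obtain ⟨f, hf⟩ := exists_labelling G ⌊B⌋₊ Δ hΔ (by
    intro Y hY
    obtain ⟨y, hy, hmin⟩ := exists_min_image Y (fun y => cnt Y (fun z => z ≠ y ∧ Near G y z)) hY
    refine ⟨y, hy, ?_⟩
    obtain ⟨k, hk1, hk2, hk3⟩ := degen G hG Δ hΔ Y hY _ hmin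
    have h1 : cnt Y (fun z => z ≠ y ∧ Near G y z) ≤ B := by
      refine hk3.trans ?_
      have h2 := sqrt_mul_le (k := (k : ℝ)) (M := (Δ : ℝ) + 1) (by positivity) (by positivity)
      have h3 : (k : ℝ) ≤ (Δ : ℝ) + 1 := by exact_mod_cast hk2
      rw [hB]
      linarith
    rw [cnt_eq] at h1 ⊢
    exact_mod_cast Nat.le_floor h1)
  refine ⟨_, f, hf, ?_⟩
  push_cast
  have := Nat.floor_le hB0
  rw [hB] at this ⊢
  linarith

end Pool.Agent.H29.Chordal
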