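import Mathlib
import Pool.Agent.H29.ChordalDefs
import Pool.Agent.H29.ChordalUpper

namespace Pool.Agent.H29.Chordal

open Filter Topology

/-- Upper bound for chordal graphs, given a perfect elimination order. -/
theorem upper_of_rank {V : Type*} [Finite V] (G : SimpleGraph V)
    (r : V → ℕ) (hr : Function.Injective r)
    (hG : ∀ v u w, r u < r v → r w < r v → G.Adj v u → G.Adj v w → u ≠ w → G.Adj u w)
    (Δ : ℕ) (hΔ : ∀ u, (G.neighborSet u).ncard ≤ Δ) :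
    ∃ k f, IsL21Labelling G k f ∧
      (k : ℝ) ≤ 2 / (3 * √3) * ((Δ : ℝ) + 1) ^ (3 / 2 : ℝ) + 3 * Δ := by
  classical
  have := Fintype.ofFinite V
  let _ : LinearOrder V := LinearOrder.lift' r hr
  exact upper_of_peo G (fun v u w hu hw => hG v u w hu hw) Δ hΔ

/-- Assembly of the asymptotic statement. -/
theorem assemble
    (peo : ∀ (n : ℕ) (G : SimpleGraph (Fin n)), IsChordal G → ∃ r : Fin n → ℕ,
      Function.Injective r ∧
        ∀ v u w, r u < r v → r w < r v → G.Adj v u → G.Adj v w → u ≠ w → G.Adj u w)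
    (exch : ∀ D : ℕ, ∃ (n : ℕ) (G : SimpleGraph (Fin n)), IsChordal G ∧ HasMaxDegree G D)
    (lower : ∀ ε : ℝ, 0 < ε → ∀ᶠ D : ℕ in atTop, ∃ (n : ℕ) (G : SimpleGraph (Fin n)),
      IsChordal G ∧ HasMaxDegree G D ∧ ∀ k f, IsL21Labelling G k f →
        (2 / (3 * √3) - ε) * (D : ℝ) ^ (3 / 2 : ℝ) ≤ k) :
    ∃ F : ℕ → ℕ, (∀ D, IsGreatest (chordalLambdas D) (F D)) ∧
      Tendsto (fun D : ℕ => (F D : ℝ) / (D : ℝ) ^ (3 / 2 : ℝ)) atTop (𝓝 (2 / (3 * √3))) := by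
  classical
  -- the least span exists and is bounded
  have hup : ∀ (D n : ℕ) (G : SimpleGraph (Fin n)), IsChordal G → HasMaxDegree G D →
      ∃ k f, IsL21Labelling G k f ∧
        (k : ℝ) ≤ 2 / (3 * √3) * ((D : ℝ) + 1) ^ (3 / 2 : ℝ) + 3 * D := by
    intro D n G hc hD
    obtain ⟨r, hr, hr'⟩ := peo n G hc
    exact upper_of_rank G r hr hr' D hD.1
  have hleast : ∀ (D n : ℕ) (G : SimpleGraph (Fin n)), IsChordal G → HasMaxDegree G D →
      ∃ l, IsLeast {k | ∃ f, IsL21Labelling G k f} l := by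
    intro D n G hc hD
    obtain ⟨k, f, hf, -⟩ := hup D n G hc hD
    exact ⟨_, Nat.isLeast_find (p := fun k => ∃ f, IsL21Labelling G k f) ⟨k, f, hf⟩⟩
  have hbd : ∀ D l, l ∈ chordalLambdas D →
      (l : ℝ) ≤ 2 / (3 * √3) * ((D : ℝ) + 1) ^ (3 / 2 : ℝ) + 3 * D := by
    rintro D l ⟨n, G, hc, hD, hl⟩
    obtain ⟨k, f, hf, hk⟩ := hup D n G hc hD
    have : l ≤ k := hl.2 ⟨f, hf⟩
    have : (l : ℝ) ≤ k := by exact_mod_cast this
    linarith
  have hgr : ∀ D, ∃ m, IsGreatest (chordalLambdas D) m := by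
    intro D
    have hne : (chordalLambdas D).Nonempty := by
      obtain ⟨n, G, hc, hD⟩ := exch D
      obtain ⟨l, hl⟩ := hleast D n G hc hD
      exact ⟨l, n, G, hc, hD, hl⟩
    have hbdd : BddAbove (chordalLambdas D) := by
      refine ⟨⌊2 / (3 * √3) * ((D : ℝ) + 1) ^ (3 / 2 : ℝ) + 3 * D⌋₊, ?_⟩
      intro l hl
      exact Nat.le_floor (hbd D l hl)
    exact ⟨sSup (chordalLambdas D), Nat.sSup_mem hne hbdd, fun l hl => le_csSup hbdd hl⟩
  choose F hF using hgr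
  refine ⟨F, hF, ?_⟩
  -- upper function
  have hupper : ∀ᶠ D : ℕ in atTop, (F D : ℝ) / (D : ℝ) ^ (3 / 2 : ℝ) ≤
      2 / (3 * √3) * (((D : ℝ) + 1) / D) ^ (3 / 2 : ℝ) + 3 * ((D : ℝ) ^ (1 / 2 : ℝ))⁻¹ := by
    filter_upwards [eventually_gt_atTop 0] with D hD
    have hD' : (0 : ℝ) < D := by exact_mod_cast hD
    have hp : 0 < (D : ℝ) ^ (3 / 2 : ℝ) := Real.rpow_pos_of_pos hD' _
    rw [div_le_iff₀ hp]
    refine (hbd D (F D) (hF D).1).trans (le_of_eq ?_)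
    rw [add_mul, Real.div_rpow (by positivity) hD'.le]
    have h1 : (D : ℝ) ^ (3 / 2 : ℝ) = D * (D : ℝ) ^ (1 / 2 : ℝ) := by
      have : (3 / 2 : ℝ) = 1 + 1 / 2 := by norm_num
      rw [this, Real.rpow_add hD', Real.rpow_one]
    have hq : 0 < (D : ℝ) ^ (1 / 2 : ℝ) := Real.rpow_pos_of_pos hD' _
    congr 1
    · field_simp
    · rw [h1]; field_simp
  have hlim : Tendsto (fun D : ℕ => 2 / (3 * √3) * (((D : ℝ) + 1) / D) ^ (3 / 2 : ℝ) +
      3 * ((D : ℝ) ^ (1 / 2 : ℝ))⁻¹) atTop (𝓝 (2 / (3 * √3))) := by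
    have h1 : Tendsto (fun D : ℕ => ((D : ℝ) + 1) / D) atTop (𝓝 1) := by
      have : Tendsto (fun D : ℕ => 1 + 1 / (D : ℝ)) atTop (𝓝 (1 + 0)) :=
        tendsto_const_nhds.add tendsto_one_div_atTop_nhds_zero_nat
      rw [add_zero] at this
      refine this.congr' ?_
      filter_upwards [eventually_gt_atTop 0] with D hD
      have hD' : (0 : ℝ) < D := by exact_mod_cast hD
      field_simp
    have h2 : Tendsto (fun D : ℕ => (((D : ℝ) + 1) / D) ^ (3 / 2 : ℝ)) atTop (𝓝 1) := by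
      have := h1.rpow_const (p := (3 / 2 : ℝ)) (Or.inl one_ne_zero)
      rwa [Real.one_rpow] at this
    have h3 : Tendsto (fun D : ℕ => ((D : ℝ) ^ (1 / 2 : ℝ))⁻¹) atTop (𝓝 0) :=
      ((tendsto_rpow_atTop (by norm_num)).comp tendsto_natCast_atTop_atTop).inv_tendsto_atTop
    have h4 := (h2.const_mul (2 / (3 * √3))).add (h3.const_mul 3)
    simpa using h4
  rw [tendsto_order]
  constructor
  · intro a ha
    obtain ⟨ε, hε, hε'⟩ : ∃ ε, 0 < ε ∧ a < 2 / (3 * √3) - ε :=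
      ⟨(2 / (3 * √3) - a) / 2, by linarith, by linarith⟩
    filter_upwards [lower ε hε, eventually_gt_atTop 0] with D hlow hD
    have hD' : (0 : ℝ) < D := by exact_mod_cast hD
    have hp : 0 < (D : ℝ) ^ (3 / 2 : ℝ) := Real.rpow_pos_of_pos hD' _
    rw [lt_div_iff₀ hp]
    obtain ⟨n, G, hc, hDeg, hl⟩ := hlow
    obtain ⟨l, hleast⟩ := hleast D n G hc hDeg
    obtain ⟨f, hf⟩ := hleast.1
    have h1 : l ≤ F D := (hF D).2 ⟨n, G, hc, hDeg, hleast⟩
    have h2 : (l : ℝ) ≤ F D := by exact_mod_cast h1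
    have h3 := hl l f hf
    have h4 : a * (D : ℝ) ^ (3 / 2 : ℝ) < (2 / (3 * √3) - ε) * (D : ℝ) ^ (3 / 2 : ℝ) :=
      mul_lt_mul_of_pos_right hε' hp
    linarith
  · intro a ha
    filter_upwards [hupper, (tendsto_order.mp hlim).2 a ha] with D h1 h2
    exact lt_of_le_of_lt h1 h2

end Pool.Agent.H29.Chordal
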