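import Mathlib

namespace Pool.Agent.H29.Shrink

/-- The family `(p i)`, `i ∈ I`, of points of `ℝ^d` admits a continuous shrinking onto the family
`(q i)`, `i ∈ I`: there are continuous paths `x i : [0,1] → ℝ^d` from `p i` to `q i`, `i ∈ I`,
such that all mutual distances are nonincreasing in time. -/
def AdmitsShrinking {ι : Type*} {d : ℕ} (I : Finset ι) (p q : ι → EuclideanSpace ℝ (Fin d)) :
    Prop :=
  ∃ x : ι → unitInterval → EuclideanSpace ℝ (Fin d),
    (∀ i ∈ I, Continuous (x i) ∧ x i 0 = p i ∧ x i 1 = q i) ∧
    ∀ i ∈ I, ∀ j ∈ I, Antitone fun t => dist (x i t) (x j t)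

/-- `m` is a Helly number for shrinking in dimension `d`: for all finite families of points
`p 1, …, p n` and `q 1, …, q n` of `ℝ^d`, if every subfamily with at most `m` members admits a
continuous shrinking of the `p i` onto the `q i`, then the whole family does. -/
def IsHellyNumber (d m : ℕ) : Prop :=
  ∀ (n : ℕ) (p q : Fin n → EuclideanSpace ℝ (Fin d)),
    (∀ I : Finset (Fin n), I.card ≤ m → AdmitsShrinking I p q) →
      AdmitsShrinking Finset.univ p q

end Pool.Agent.H29.Shrink
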