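import Mathlib

namespace Pool.Agent.H29.Shrink

open Real
open scoped RealInnerProductSpace

variable {n : ℕ}

/-- Reindexing of the coordinates. -/
def ee (n : ℕ) : Fin (n + 1) ⊕ Fin 1 ≃ Fin (n + 2) := finSumFinEquiv (m := n + 1) (n := 1)

/-- The matrix whose rows are `u 0, …, u n` and `v`. -/
noncomputable def frm (u : Fin (n + 1) → EuclideanSpace ℝ (Fin (n + 2)))
    (v : EuclideanSpace ℝ (Fin (n + 2))) :
    Matrix (Fin (n + 1) ⊕ Fin 1) (Fin (n + 1) ⊕ Fin 1) ℝ :=
  Matrix.of fun a b => (Sum.elim u (fun _ => v) a) (ee n b)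

lemma frm_det_sq (u : Fin (n + 1) → EuclideanSpace ℝ (Fin (n + 2)))
    (hu : Orthonormal ℝ u) (v : EuclideanSpace ℝ (Fin (n + 2))) :
    (frm u v).det ^ 2 = ‖v‖ ^ 2 - ∑ i, ⟪u i, v⟫ ^ 2 := by
  have h1 : (frm u v) * (frm u v).transpose =
      Matrix.fromBlocks 1 (Matrix.of fun i _ => ⟪u i, v⟫) (Matrix.of fun _ i => ⟪u i, v⟫)
        (Matrix.of fun _ _ => ‖v‖ ^ 2) := by
    have key : ∀ a a' : Fin (n + 1) ⊕ Fin 1, ((frm u v) * (frm u v).transpose) a a' =
        ⟪Sum.elim u (fun _ => v) a, Sum.elim u (fun _ => v) a'⟫ := by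
      intro a a'
      rw [Matrix.mul_apply, PiLp.inner_apply]
      rw [← Equiv.sum_comp (ee n)]
      apply Finset.sum_congr rfl
      intro b _
      simp only [frm, Matrix.transpose_apply, Matrix.of_apply, RCLike.inner_apply, conj_trivial]
      ring
    ext a a'
    rw [key]
    rcases a with a | a <;> rcases a' with a' | a'
    · simp only [Sum.elim_inl, Matrix.fromBlocks_apply₁₁, Matrix.one_apply]
      exact orthonormal_iff_ite.mp hu a a'
    · simp
    · simp only [Sum.elim_inl, Sum.elim_inr, Matrix.fromBlocks_apply₂₁, Matrix.of_apply]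
      exact real_inner_comm _ _
    · simp
  have h2 : (frm u v).det ^ 2 = ((frm u v) * (frm u v).transpose).det := by
    rw [Matrix.det_mul, Matrix.det_transpose, sq]
  rw [h2, h1, Matrix.det_fromBlocks_one₁₁, Matrix.det_unique]
  simp only [Matrix.sub_apply, Matrix.mul_apply, Matrix.of_apply]
  congr 1
  apply Finset.sum_congr rfl
  intro i _
  ring

lemma frm_eq_updateRow (u : Fin (n + 1) → EuclideanSpace ℝ (Fin (n + 2)))
    (v : EuclideanSpace ℝ (Fin (n + 2))) :
    frm u v = (frm u 0).updateRow (Sum.inr 0) (fun b => v (ee n b)) := by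
  ext a b
  rcases a with a | a
  · rw [Matrix.updateRow_ne (by simp)]
    rfl
  · have : a = 0 := Subsingleton.elim _ _
    subst this
    rw [Matrix.updateRow_self]
    rfl

lemma frm_det_sub (u : Fin (n + 1) → EuclideanSpace ℝ (Fin (n + 2)))
    (v w : EuclideanSpace ℝ (Fin (n + 2))) :
    (frm u (v - w)).det = (frm u v).det - (frm u w).det := by
  have : (frm u v).det = (frm u (v - w)).det + (frm u w).det := by
    rw [frm_eq_updateRow u v, frm_eq_updateRow u (v - w), frm_eq_updateRow u w,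
      ← Matrix.det_updateRow_add]
    congr 2
    ext b
    simp
  linarith

/-- The plane coordinate of `v` in the oriented orthogonal complement of `u 1, …, u n`, where the
first axis is `u 0`. -/
noncomputable def zc (u : Fin (n + 1) → EuclideanSpace ℝ (Fin (n + 2)))
    (v : EuclideanSpace ℝ (Fin (n + 2))) : ℂ := ⟨⟪u 0, v⟫, (frm u v).det⟩

lemma zc_norm_sq (u : Fin (n + 1) → EuclideanSpace ℝ (Fin (n + 2)))
    (hu : Orthonormal ℝ u) (v : EuclideanSpace ℝ (Fin (n + 2))) :
    ‖zc u v‖ ^ 2 = ‖v‖ ^ 2 - ∑ i : Fin n, ⟪u i.succ, v⟫ ^ 2 := by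
  rw [Complex.sq_norm, Complex.normSq_apply]
  simp only [zc]
  have := frm_det_sq u hu v
  rw [Fin.sum_univ_succ] at this
  nlinarith

lemma zc_sub (u : Fin (n + 1) → EuclideanSpace ℝ (Fin (n + 2)))
    (v w : EuclideanSpace ℝ (Fin (n + 2))) : zc u (v - w) = zc u v - zc u w := by
  apply Complex.ext
  · simp [zc, inner_sub_right]
  · simp [zc, frm_det_sub]

lemma zc_norm_le (u : Fin (n + 1) → EuclideanSpace ℝ (Fin (n + 2)))
    (hu : Orthonormal ℝ u) (v : EuclideanSpace ℝ (Fin (n + 2))) : ‖zc u v‖ ≤ ‖v‖ := by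
  have := zc_norm_sq u hu v
  have h : 0 ≤ ∑ i : Fin n, ⟪u i.succ, v⟫ ^ 2 := Finset.sum_nonneg fun i _ => sq_nonneg _
  exact le_of_sq_le_sq (by linarith) (norm_nonneg _)

lemma zc_continuous {X : Type*} [TopologicalSpace X]
    (u : X → Fin (n + 1) → EuclideanSpace ℝ (Fin (n + 2)))
    (v : X → EuclideanSpace ℝ (Fin (n + 2))) (hu : ∀ i, Continuous fun x => u x i)
    (hv : Continuous v) : Continuous fun x => zc (u x) (v x) := by
  have h1 : Continuous fun x => (⟪u x 0, v x⟫ : ℝ) := (hu 0).inner hv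
  have h2 : Continuous fun x => (frm (u x) (v x)).det := by
    apply Continuous.matrix_det
    apply continuous_matrix
    intro a b
    rcases a with a | a
    · simp only [frm, Matrix.of_apply, Sum.elim_inl]
      exact (PiLp.continuous_apply 2 _ _).comp (hu a)
    · simp only [frm, Matrix.of_apply, Sum.elim_inr]
      exact (PiLp.continuous_apply 2 _ _).comp hv
  have : (fun x => zc (u x) (v x)) =
      fun x => ((⟪u x 0, v x⟫ : ℝ) : ℂ) + (((frm (u x) (v x)).det : ℝ) : ℂ) * Complex.I := by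
    funext x
    apply Complex.ext <;> simp [zc]
  rw [this]
  fun_prop

end Pool.Agent.H29.Shrink
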