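import Mathlib

namespace Pool.Agent.H29.Shrink

open Real

lemma trig_mono {b b' l : ℝ} (hb : π / 2 ≤ b) (hbb' : b ≤ b') (hb' : b' < π)
    (hl0 : 0 ≤ l) (hl1 : l ≤ 1) : sin (l * b) * sin b' ≤ sin (l * b') * sin b := by
  obtain ⟨S, hS⟩ : ∃ S, S = (b + b') / 2 := ⟨_, rfl⟩
  obtain ⟨D, hD⟩ : ∃ D, D = (b' - b) / 2 := ⟨_, rfl⟩
  have eb : b = S - D := by rw [hS, hD]; ring
  have eb' : b' = S + D := by rw [hS, hD]; ring
  have hpi := Real.pi_pos
  have hS1 : π / 2 ≤ S := by rw [hS]; linarith
  have hS2 : S < π := by rw [hS]; linarith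
  have hD0 : 0 ≤ D := by rw [hD]; linarith
  have hD1 : D ≤ π / 4 := by rw [hD]; linarith
  have key : sin (l * b) * sin b' - sin (l * b') * sin b =
      2 * (sin (l * S) * cos S * (cos (l * D) * sin D) -
        cos (l * S) * sin S * (sin (l * D) * cos D)) := by
    rw [eb, eb', mul_sub, mul_add, sin_sub, sin_add, sin_add, sin_sub]
    ring
  have hlS0 : 0 ≤ l * S := mul_nonneg hl0 (by linarith)
  have hlS1 : l * S ≤ S := by nlinarith
  have hlD0 : 0 ≤ l * D := mul_nonneg hl0 hD0
  have hlD1 : l * D ≤ D := by nlinarith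
  have h1 : 0 ≤ sin (l * S) := sin_nonneg_of_nonneg_of_le_pi hlS0 (by linarith)
  have h2 : cos S ≤ 0 := cos_nonpos_of_pi_div_two_le_of_le hS1 (by linarith)
  have h3 : 0 ≤ cos (l * D) := cos_nonneg_of_neg_pi_div_two_le_of_le (by linarith) (by linarith)
  have h4 : 0 ≤ sin D := sin_nonneg_of_nonneg_of_le_pi hD0 (by linarith)
  have h5 : 0 ≤ sin S := sin_nonneg_of_nonneg_of_le_pi (by linarith) (by linarith)
  have h6 : 0 ≤ sin (l * D) := sin_nonneg_of_nonneg_of_le_pi hlD0 (by linarith)
  have h7 : 0 ≤ cos D := cos_nonneg_of_neg_pi_div_two_le_of_le (by linarith) (by linarith)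
  have h8 : sin (l * D) ≤ sin D := sin_le_sin_of_le_of_le_pi_div_two (by linarith) (by linarith) hlD1
  have h9 : cos D ≤ cos (l * D) := cos_le_cos_of_nonneg_of_le_pi hlD0 (by linarith) hlD1
  have hA : sin (l * S) * cos S ≤ 0 := mul_nonpos_of_nonneg_of_nonpos h1 h2
  have hP : 0 ≤ cos (l * D) * sin D := mul_nonneg h3 h4
  have hQ : 0 ≤ sin (l * D) * cos D := mul_nonneg h6 h7
  have hPQ : sin (l * D) * cos D ≤ cos (l * D) * sin D := by
    calc sin (l * D) * cos D ≤ sin D * cos (l * D) := mul_le_mul h8 h9 h7 h4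
      _ = _ := mul_comm _ _
  rcases le_or_gt (l * S) (π / 2) with hc | hc
  · have : 0 ≤ cos (l * S) := cos_nonneg_of_neg_pi_div_two_le_of_le (by linarith) hc
    have hB : 0 ≤ cos (l * S) * sin S := mul_nonneg this h5
    nlinarith [mul_nonneg (neg_nonneg.mpr hA) hP, mul_nonneg hB hQ]
  · have h10 : cos S ≤ cos (l * S) := cos_le_cos_of_nonneg_of_le_pi hlS0 (by linarith) hlS1
    have h11 : cos (l * S) ≤ 0 := cos_nonpos_of_pi_div_two_le_of_le hc.le (by linarith)
    have h12 : sin S ≤ sin (l * S) := by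
      have := sin_le_sin_of_le_of_le_pi_div_two (x := π - S) (y := π - l * S) (by linarith)
        (by linarith) (by linarith)
      rwa [sin_pi_sub, sin_pi_sub] at this
    -- `-(cos lS) sin S ≤ -(cos S) sin lS`
    have hAB : -(cos (l * S) * sin S) ≤ -(sin (l * S) * cos S) := by
      have : (-cos (l * S)) * sin S ≤ (-cos S) * sin (l * S) :=
        mul_le_mul (by linarith) h12 h5 (by linarith)
      linarith
    have hB' : 0 ≤ -(cos (l * S) * sin S) := by
      have := mul_nonneg (neg_nonneg.mpr h11) h5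
      linarith
    have : (-(cos (l * S) * sin S)) * (sin (l * D) * cos D) ≤
        (-(sin (l * S) * cos S)) * (cos (l * D) * sin D) :=
      mul_le_mul hAB hPQ hQ (by linarith)
    nlinarith

/-- The denominator of the radius. -/
noncomputable def sg (z a : ℝ) : ℝ := sin (max (a * z) (π / 2))

lemma sg_pos {z a : ℝ} (hz : z < π) (ha1 : a ≤ 1) (hz0 : 0 ≤ z) : 0 < sg z a := by
  have hpi := Real.pi_pos
  unfold sg
  apply sin_pos_of_pos_of_lt_pi
  · exact lt_of_lt_of_le (by linarith) (le_max_right _ _)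
  · apply max_lt _ (by linarith)
    nlinarith

lemma sg_le_one (z a : ℝ) : sg z a ≤ 1 := sin_le_one _

lemma sg_anti {z a a' : ℝ} (hz : z < π) (hz0 : 0 ≤ z) (haa' : a ≤ a') (ha1 : a' ≤ 1) :
    sg z a' ≤ sg z a := by
  have hpi := Real.pi_pos
  unfold sg
  have h1 : max (a * z) (π / 2) ≤ max (a' * z) (π / 2) :=
    max_le_max (by nlinarith) le_rfl
  have h2 : π / 2 ≤ max (a * z) (π / 2) := le_max_right _ _
  have h3 : max (a' * z) (π / 2) ≤ π := by
    apply max_le _ (by linarith)
    nlinarith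
  have := sin_le_sin_of_le_of_le_pi_div_two (x := π - max (a' * z) (π / 2))
    (y := π - max (a * z) (π / 2)) (by linarith) (by linarith) (by linarith)
  rwa [sin_pi_sub, sin_pi_sub] at this

/-- The main monotonicity: `sin (a y) / sg z a` is nondecreasing in `a ∈ [0,1]`. -/
lemma main_mono {z y a a' : ℝ} (hz : z < π) (hz0 : π / 2 ≤ z) (hy0 : 0 ≤ y) (hyz : y ≤ z)
    (ha0 : 0 ≤ a) (haa' : a ≤ a') (ha1 : a' ≤ 1) :
    sin (a * y) / sg z a ≤ sin (a' * y) / sg z a' := by
  have hpi := Real.pi_pos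
  have hzpos : 0 < z := by linarith
  -- small case
  have small : ∀ a a' : ℝ, 0 ≤ a → a ≤ a' → a' * z ≤ π / 2 →
      sin (a * y) / sg z a ≤ sin (a' * y) / sg z a' := by
    intro a a' ha0 haa' h
    have e1 : sg z a = 1 := by
      unfold sg; rw [max_eq_right (by nlinarith)]; exact sin_pi_div_two
    have e2 : sg z a' = 1 := by
      unfold sg; rw [max_eq_right h]; exact sin_pi_div_two
    rw [e1, e2, div_one, div_one]
    apply sin_le_sin_of_le_of_le_pi_div_two
    · have : 0 ≤ a * y := by positivity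
      linarith
    · have : a' * y ≤ a' * z := by
        apply mul_le_mul_of_nonneg_left hyz (by linarith)
      linarith
    · apply mul_le_mul_of_nonneg_right haa' hy0
  have large : ∀ a a' : ℝ, 0 ≤ a → a ≤ a' → a' ≤ 1 → π / 2 ≤ a * z →
      sin (a * y) / sg z a ≤ sin (a' * y) / sg z a' := by
    intro a a' ha0 haa' ha1 h
    have hle : a * z ≤ a' * z := mul_le_mul_of_nonneg_right haa' hzpos.le
    have e1 : sg z a = sin (a * z) := by
      unfold sg; rw [max_eq_left h]
    have e2 : sg z a' = sin (a' * z) := by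
      unfold sg; rw [max_eq_left (by linarith)]
    have hlt : a' * z < π := by nlinarith
    have p1 : 0 < sin (a * z) := sin_pos_of_pos_of_lt_pi (by linarith) (by linarith)
    have p2 : 0 < sin (a' * z) := sin_pos_of_pos_of_lt_pi (by linarith) hlt
    rw [e1, e2, div_le_div_iff₀ p1 p2]
    have := trig_mono (b := a * z) (b' := a' * z) (l := y / z) h hle hlt (by positivity)
      (by rw [div_le_one hzpos]; exact hyz)
    have e3 : y / z * (a * z) = a * y := by field_simp
    have e4 : y / z * (a' * z) = a' * y := by field_simp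
    rw [e3, e4] at this
    exact this
  rcases le_or_gt (a' * z) (π / 2) with h | h
  · exact small a a' ha0 haa' h
  · rcases le_or_gt (π / 2) (a * z) with h' | h'
    · exact large a a' ha0 haa' ha1 h'
    · have hm0 : 0 ≤ π / 2 / z := by positivity
      have e : π / 2 / z * z = π / 2 := by field_simp
      have h1 : a ≤ π / 2 / z := by
        rw [le_div_iff₀ hzpos]; exact h'.le
      have h2 : π / 2 / z ≤ a' := by
        rw [div_le_iff₀ hzpos]; exact h.le
      exact (small a _ ha0 h1 e.le).trans (large _ a' hm0 h2 ha1 e.ge)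

end Pool.Agent.H29.Shrink
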