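import Mathlib
import Pool.Agent.H29.ShrinkTrig

namespace Pool.Agent.H29.Shrink

open Real
open scoped RealInnerProductSpace

variable {n : ℕ}

/-- The point of `ℝ^(n+2)` with plane polar coordinates `(r, θ)` (first and last coordinate) and
vertical part `v`. -/
noncomputable def pt (r θ : ℝ) (v : Fin n → ℝ) : EuclideanSpace ℝ (Fin (n + 2)) :=
  WithLp.toLp 2 (Fin.snoc (α := fun _ => ℝ) (Fin.cons (r * cos θ) v : Fin (n + 1) → ℝ)
    (r * sin θ))

lemma pt_last (r θ : ℝ) (v : Fin n → ℝ) : (pt r θ v) (Fin.last (n + 1)) = r * sin θ := by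
  simp [pt]

lemma pt_zero (r θ : ℝ) (v : Fin n → ℝ) :
    (pt r θ v) (Fin.castSucc (0 : Fin (n + 1))) = r * cos θ := by
  simp only [pt, Fin.snoc_castSucc, Fin.cons_zero]

lemma pt_mid (r θ : ℝ) (v : Fin n → ℝ) (i : Fin n) :
    (pt r θ v) (Fin.castSucc i.succ) = v i := by
  simp only [pt, Fin.snoc_castSucc, Fin.cons_succ]

lemma dist_pt (r θ r' θ' : ℝ) (v v' : Fin n → ℝ) :
    dist (pt r θ v) (pt r' θ' v') =
      √((r - r') ^ 2 + 4 * (r * r') * sin ((θ - θ') / 2) ^ 2 + ∑ i, (v i - v' i) ^ 2) := by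
  rw [EuclideanSpace.dist_eq, Fin.sum_univ_castSucc, Fin.sum_univ_succ]
  congr 1
  simp only [pt_last, pt_zero, pt_mid, Real.dist_eq, sq_abs]
  have h1 : sin ((θ - θ') / 2) ^ 2 = 1 / 2 - cos (θ - θ') / 2 := by
    rw [Real.sin_sq_eq_half_sub]
    congr 3
    ring
  rw [h1, Real.cos_sub]
  have e1 := Real.sin_sq_add_cos_sq θ
  have e2 := Real.sin_sq_add_cos_sq θ'
  linear_combination (r ^ 2) * e1 + (r' ^ 2) * e2

lemma rad_mono {z y a a' κ : ℝ} (hκ : κ = 0 ∨ κ = 1) (hz : z < π) (hz0 : π / 2 ≤ z)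
    (hy0 : 0 ≤ y) (hyz : y ≤ z) (ha0 : 0 ≤ a) (haa' : a ≤ a') (ha1 : a' ≤ 1) :
    0 ≤ (1 / sg z a - 1 + κ) * sin (a * y) ∧
    (1 / sg z a - 1 + κ) * sin (a * y) ≤ (1 / sg z a' - 1 + κ) * sin (a' * y) := by
  have hpi := Real.pi_pos
  have hz' : 0 ≤ z := by linarith
  have s1 := sg_pos (a := a) hz (by linarith) hz'
  have s2 := sg_pos (a := a') hz ha1 hz'
  have l1 := sg_le_one z a
  have l2 := sg_le_one z a'
  have hm := main_mono hz hz0 hy0 hyz ha0 haa' ha1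
  have hsa := sg_anti hz hz' haa' ha1
  have hs0 : 0 ≤ sin (a * y) := by
    apply sin_nonneg_of_nonneg_of_le_pi (by positivity)
    nlinarith
  have hg0 : 0 ≤ sin (a * y) / sg z a := div_nonneg hs0 s1.le
  rcases hκ with rfl | rfl
  · have e1 : (1 / sg z a - 1 + 0) * sin (a * y) = sin (a * y) / sg z a * (1 - sg z a) := by
      field_simp; ring
    have e2 : (1 / sg z a' - 1 + 0) * sin (a' * y) = sin (a' * y) / sg z a' * (1 - sg z a') := by
      field_simp; ring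
    rw [e1, e2]
    refine ⟨mul_nonneg hg0 (by linarith), ?_⟩
    exact mul_le_mul hm (by linarith) (by linarith) (hg0.trans hm)
  · have e1 : (1 / sg z a - 1 + 1) * sin (a * y) = sin (a * y) / sg z a := by
      field_simp; ring
    have e2 : (1 / sg z a' - 1 + 1) * sin (a' * y) = sin (a' * y) / sg z a' := by
      field_simp; ring
    rw [e1, e2]
    exact ⟨hg0, hm⟩

/-- Distances in the unwinding motion are monotone. -/
lemma dist_mono {z a a' κ κ' θ θ' : ℝ} (v v' : Fin n → ℝ) (hκ : κ = 0 ∨ κ = 1)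
    (hκ' : κ' = 0 ∨ κ' = 1) (hz : z < π) (hz0 : π / 2 ≤ z)
    (hθ : |θ - θ'| ≤ 2 * z) (ha0 : 0 ≤ a) (haa' : a ≤ a') (ha1 : a' ≤ 1) :
    dist (pt (1 / sg z a - 1 + κ) (a * θ) v) (pt (1 / sg z a - 1 + κ') (a * θ') v') ≤
    dist (pt (1 / sg z a' - 1 + κ) (a' * θ) v) (pt (1 / sg z a' - 1 + κ') (a' * θ') v') := by
  rw [dist_pt, dist_pt]
  apply Real.sqrt_le_sqrt
  have hy0 : 0 ≤ |θ - θ'| / 2 := by positivity
  have hyz : |θ - θ'| / 2 ≤ z := by linarith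
  have hr := rad_mono hκ hz hz0 hy0 hyz ha0 haa' ha1
  have hr' := rad_mono hκ' hz hz0 hy0 hyz ha0 haa' ha1
  have hs : ∀ b : ℝ, sin ((b * θ - b * θ') / 2) ^ 2 = sin (b * (|θ - θ'| / 2)) ^ 2 := by
    intro b
    rcases abs_cases (θ - θ') with h | h
    · rw [h.1]; congr 2; ring
    · rw [h.1]
      have : (b * θ - b * θ') / 2 = - (b * (-(θ - θ') / 2)) := by ring
      rw [this, sin_neg, neg_sq]
  rw [hs a, hs a']
  have h1 := mul_le_mul hr.2 hr'.2 hr'.1 (hr.1.trans hr.2)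
  have e : ∀ x y s : ℝ, 4 * (x * y) * s ^ 2 = 4 * ((x * s) * (y * s)) := by
    intro x y s; ring
  rw [e, e]
  have e3 : (1 / sg z a - 1 + κ - (1 / sg z a - 1 + κ')) =
      (1 / sg z a' - 1 + κ - (1 / sg z a' - 1 + κ')) := by ring
  rw [e3]
  linarith

end Pool.Agent.H29.Shrink
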