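import Mathlib

namespace Pool.Agent.H29.Shrink

open Real

/-- A closed chain of nowhere antipodal plane vectors keeps its winding number: it cannot
go from a regular polygon (once around) to a constant chain. -/
lemma winding {N : ℕ} [NeZero N] (z : Fin N → unitInterval → ℂ) (hcont : ∀ k, Continuous (z k))
    (hclose : ∀ k t, ‖z (k + 1) t - z k t‖ < ‖z k t‖)
    (h0 : ∀ k, z (k + 1) 0 = z k 0 * Complex.exp ((2 * π / N : ℝ) * Complex.I))
    (hN : 2 ≤ N)
    (h1 : ∀ k, z (k + 1) 1 = z k 1) : False := by
  have hne : ∀ k t, z k t ≠ 0 := fun k t h => by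
    have := hclose k t
    rw [h, norm_zero] at this
    exact absurd this (not_lt.mpr (norm_nonneg _))
  set w : Fin N → unitInterval → ℂ := fun k t => z (k + 1) t / z k t with hw
  have hwslit : ∀ k t, w k t ∈ Complex.slitPlane := by
    intro k t
    apply Complex.ball_one_subset_slitPlane
    rw [Metric.mem_ball, dist_eq_norm]
    have e : w k t - 1 = (z (k + 1) t - z k t) / z k t := by
      simp only [hw]
      rw [sub_div, div_self (hne k t)]
    rw [e, norm_div, div_lt_one (norm_pos_iff.mpr (hne k t))]
    exact hclose k t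
  have hwne : ∀ k t, w k t ≠ 0 := fun k t => Complex.slitPlane_ne_zero (hwslit k t)
  have hwcont : ∀ k, Continuous (w k) := fun k => (hcont (k + 1)).div (hcont k) (hne k)
  set θ : unitInterval → ℝ := fun t => ∑ k, (w k t).arg with hθ
  have hθcont : Continuous θ := by
    apply continuous_finsetSum
    intro k _
    rw [continuous_iff_continuousAt]
    intro t
    exact ContinuousAt.comp (f := w k) (g := Complex.arg) (Complex.continuousAt_arg (hwslit k t))
      (hwcont k).continuousAt
  have hprod : ∀ t, ∏ k, w k t = 1 := by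
    intro t
    simp only [hw]
    rw [Finset.prod_div_distrib]
    have : ∏ k : Fin N, z (k + 1) t = ∏ k : Fin N, z k t :=
      Equiv.prod_comp (Equiv.addRight (1 : Fin N)) (fun k => z k t)
    rw [this]
    exact div_self (Finset.prod_ne_zero_iff.mpr fun k _ => hne k t)
  have hexp : ∀ t, Complex.exp (θ t * Complex.I) = 1 := by
    intro t
    have e1 : Complex.exp (θ t * Complex.I) = ∏ k, (w k t / ‖w k t‖) := by
      simp only [hθ]
      rw [Complex.ofReal_sum, Finset.sum_mul, Complex.exp_sum]
      apply Finset.prod_congr rfl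
      intro k _
      rw [eq_div_iff (by
        rw [Complex.ofReal_ne_zero]
        exact norm_ne_zero_iff.mpr (hwne k t)), mul_comm]
      exact Complex.norm_mul_exp_arg_mul_I (w k t)
    rw [e1, Finset.prod_div_distrib, hprod t]
    have : ∏ k : Fin N, (‖w k t‖ : ℂ) = ((‖∏ k : Fin N, w k t‖ : ℝ) : ℂ) := by
      rw [norm_prod, Complex.ofReal_prod]
    rw [this, hprod t]
    simp
  have hNpos : (0 : ℝ) < N := by
    have : 0 < N := by omega
    exact_mod_cast this
  have hθ0 : θ 0 = 2 * π := by
    have : ∀ k, (w k 0).arg = 2 * π / N := by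
      intro k
      have e : w k 0 = Complex.exp ((2 * π / N : ℝ) * Complex.I) := by
        simp only [hw]
        rw [h0 k, mul_div_cancel_left₀ _ (hne k 0)]
      rw [e, Complex.arg_exp_mul_I]
      rw [toIocMod_eq_self]
      constructor
      · have : 0 < 2 * π / N := by positivity
        linarith [Real.pi_pos]
      · rw [div_le_iff₀ hNpos]
        have : (2 : ℝ) ≤ N := by exact_mod_cast hN
        nlinarith [Real.pi_pos]
    simp only [hθ]
    rw [Finset.sum_congr rfl fun k _ => this k, Finset.sum_const, Finset.card_univ,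
      Fintype.card_fin, nsmul_eq_mul]
    field_simp
  have hθ1 : θ 1 = 0 := by
    simp only [hθ]
    apply Finset.sum_eq_zero
    intro k _
    have e : w k 1 = 1 := by
      simp only [hw]
      rw [h1 k, div_self (hne k 1)]
    rw [e, Complex.arg_one]
  obtain ⟨t, ht⟩ : π ∈ Set.range θ :=
    mem_range_of_exists_le_of_exists_ge hθcont ⟨1, by rw [hθ1]; exact Real.pi_pos.le⟩
      ⟨0, by rw [hθ0]; linarith [Real.pi_pos]⟩
  have := hexp t
  rw [ht, Complex.exp_pi_mul_I] at this
  norm_num at this

end Pool.Agent.H29.Shrink
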