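import Mathlib
import Pool.Agent.H29.ShrinkDefs
import Pool.Agent.H29.ShrinkGeom
import Pool.Agent.H29.ShrinkDet
import Pool.Agent.H29.ShrinkWind

namespace Pool.Agent.H29.Shrink

open Real
open scoped RealInnerProductSpace

/-! ### Transfer to arbitrary finite index types -/

lemma IsHellyNumber.general {d m : ℕ} (h : IsHellyNumber d m) {ι : Type*} [Fintype ι]
    (p q : ι → EuclideanSpace ℝ (Fin d))
    (hp : ∀ I : Finset ι, I.card ≤ m → AdmitsShrinking I p q) :
    AdmitsShrinking Finset.univ p q := by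
  classical
  let e := Fintype.equivFin ι
  obtain ⟨x, hx1, hx2⟩ := h (Fintype.card ι) (p ∘ e.symm) (q ∘ e.symm) (by
    intro I hI
    obtain ⟨x, hx1, hx2⟩ := hp (I.map e.symm.toEmbedding) (by rw [Finset.card_map]; exact hI)
    refine ⟨fun i => x (e.symm i), ?_, ?_⟩
    · intro i hi
      exact hx1 (e.symm i) (Finset.mem_map_of_mem _ hi)
    · intro i hi j hj
      exact hx2 (e.symm i) (Finset.mem_map_of_mem _ hi) (e.symm j) (Finset.mem_map_of_mem _ hj))
  refine ⟨fun i => x (e i), ?_, ?_⟩
  · intro i _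
    have := hx1 (e i) (Finset.mem_univ _)
    simpa using this
  · intro i _ j _
    exact hx2 (e i) (Finset.mem_univ _) (e j) (Finset.mem_univ _)

/-! ### The family -/

/-- Kinds of points in a unit: hub, tip, and one point per extra dimension. -/
abbrev K (n : ℕ) := Option (Option (Fin n))

/-- Radial offset. -/
def kap {n : ℕ} : K n → ℝ
  | none => 0
  | some none => 1
  | some (some _) => 0

/-- Vertical part. -/
def vert {n : ℕ} (c : ℝ) : K n → Fin n → ℝ
  | none => 0
  | some none => 0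
  | some (some i) => Pi.single i c

lemma kap_cases {n : ℕ} (κ : K n) : kap κ = 0 ∨ kap κ = 1 := by
  rcases κ with _ | _ | i
  · exact Or.inl rfl
  · exact Or.inr rfl
  · exact Or.inl rfl

/-- The starting family. -/
noncomputable def pp (n N : ℕ) (R c : ℝ) (a : Fin N × K n) : EuclideanSpace ℝ (Fin (n + 2)) :=
  pt (R + kap a.2) (2 * π * a.1 / N) (vert c a.2)

/-- The final family. -/
noncomputable def qq (n N : ℕ) (c : ℝ) (a : Fin N × K n) : EuclideanSpace ℝ (Fin (n + 2)) :=
  pt (kap a.2) 0 (vert c a.2)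

/-- Lifted angle, when the block `j` of directions is not used. -/
noncomputable def lft (M L j : ℕ) (k : ℕ) : ℝ :=
  2 * π * k / ((M * L : ℕ) : ℝ) + (if k / L < j then 2 * π else 0)

lemma lft_bounds {M L j k : ℕ} (hL : 0 < L) (hj : j < M) (hk : k < M * L) (hkj : k / L ≠ j) :
    2 * π * (j + 1) / M ≤ lft M L j k ∧ lft M L j k ≤ 2 * π + 2 * π * j / M := by
  have hpi := Real.pi_pos
  have hM : 0 < M := by omega
  have hM' : (0 : ℝ) < M := by exact_mod_cast hM
  have hL' : (0 : ℝ) < L := by exact_mod_cast hL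
  have hML : (0 : ℝ) < ((M * L : ℕ) : ℝ) := by positivity
  have hj1 : (j : ℝ) + 1 ≤ M := by exact_mod_cast hj
  unfold lft
  rcases lt_or_gt_of_ne hkj with h | h
  · rw [if_pos h]
    have hk' : k < j * L := (Nat.div_lt_iff_lt_mul hL).mp h
    have hk'' : (k : ℝ) ≤ j * L := by exact_mod_cast hk'.le
    constructor
    · have h1 : 2 * π * (j + 1) / M ≤ 2 * π := by
        rw [div_le_iff₀ hM']; nlinarith
      have h2 : 0 ≤ 2 * π * k / ((M * L : ℕ) : ℝ) := by positivity
      linarith
    · have h3 : 2 * π * k / ((M * L : ℕ) : ℝ) ≤ 2 * π * j / M := by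
        rw [div_le_div_iff₀ hML hM']
        push_cast
        have : 2 * π * M * k ≤ 2 * π * M * (j * L) := by gcongr
        nlinarith
      linarith
  · rw [if_neg (by omega)]
    have hk' : (j + 1) * L ≤ k := (Nat.le_div_iff_mul_le hL).mp h
    have hk'' : ((j : ℝ) + 1) * L ≤ k := by exact_mod_cast hk'
    constructor
    · rw [add_zero, div_le_div_iff₀ hM' hML]
      push_cast
      have : 2 * π * M * ((j + 1) * L) ≤ 2 * π * M * k := by gcongr
      nlinarith
    · have h1 : 2 * π * k / ((M * L : ℕ) : ℝ) ≤ 2 * π := by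
        rw [div_le_iff₀ hML]
        have : (k : ℝ) ≤ ((M * L : ℕ) : ℝ) := by exact_mod_cast hk.le
        nlinarith
      have h2 : 0 ≤ 2 * π * j / M := by positivity
      linarith

/-- The motion of subfamilies missing the directions of the block `j`. -/
lemma sub_shrink {n M L j : ℕ} (hM : 2 ≤ M) (hL : 0 < L) (hj : j < M) (c : ℝ)
    (I : Finset (Fin (M * L) × K n)) (hI : ∀ a ∈ I, (a.1 : ℕ) / L ≠ j) :
    AdmitsShrinking I (pp n (M * L) (1 / sin (π - π / M) - 1) c) (qq n (M * L) c) := by
  have hpi := Real.pi_pos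
  have hM2 : (2 : ℝ) ≤ M := by exact_mod_cast hM
  have hM' : (0 : ℝ) < M := by linarith
  obtain ⟨z, hz⟩ : ∃ z, z = π - π / M := ⟨_, rfl⟩
  have hzpi : z < π := by
    have : 0 < π / M := by positivity
    linarith
  have hz0 : π / 2 ≤ z := by
    have : π / M ≤ π / 2 := div_le_div_of_nonneg_left hpi.le (by norm_num) hM2
    linarith
  rw [← hz]
  refine ⟨fun a t => pt (1 / sg z (1 - t) - 1 + kap a.2) ((1 - t) * lft M L j a.1) (vert c a.2),
    ?_, ?_⟩
  · intro a ha
    refine ⟨?_, ?_, ?_⟩
    · have hsg : Continuous fun t : unitInterval => sg z (1 - (t : ℝ)) := by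
        unfold sg
        fun_prop
      have hsg0 : ∀ t : unitInterval, sg z (1 - (t : ℝ)) ≠ 0 := fun t =>
        (sg_pos hzpi (by linarith [t.2.1]) (by linarith)).ne'
      have h1 : Continuous fun t : unitInterval => 1 / sg z (1 - (t : ℝ)) :=
        continuous_const.div hsg hsg0
      apply (PiLp.continuous_toLp 2 _).comp
      apply continuous_pi
      intro i
      refine Fin.lastCases ?_ (fun i => ?_) i
      · simp only [Fin.snoc_last]
        fun_prop
      · refine Fin.cases ?_ (fun i => ?_) i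
        · simp only [Fin.snoc_castSucc, Fin.cons_zero]
          fun_prop
        · simp only [Fin.snoc_castSucc, Fin.cons_succ]
          fun_prop
    · simp only [Set.Icc.coe_zero, sub_zero, one_mul]
      have e1 : sg z 1 = sin z := by
        unfold sg; rw [one_mul, max_eq_left hz0]
      rw [e1]
      unfold pp lft
      split_ifs with h
      · unfold pt
        rw [cos_add_two_pi, sin_add_two_pi]
      · rw [add_zero]
    · simp only [Set.Icc.coe_one, sub_self, zero_mul]
      have e1 : sg z 0 = 1 := by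
        unfold sg; rw [zero_mul, max_eq_right (by linarith)]; exact sin_pi_div_two
      rw [e1]
      unfold qq
      norm_num
  · intro a ha b hb s t hst
    have hs1 := s.2.2
    have hs0 := s.2.1
    have ht1 := t.2.2
    have ht0 := t.2.1
    have hst' : (s : ℝ) ≤ t := hst
    apply dist_mono _ _ (kap_cases _) (kap_cases _) hzpi hz0 _ (by linarith) (by linarith)
      (by linarith)
    have ba := lft_bounds hL hj a.1.2 (hI a ha)
    have bb := lft_bounds hL hj b.1.2 (hI b hb)
    have e : 2 * π + 2 * π * j / M - 2 * π * (j + 1) / M = 2 * z := by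
      rw [hz]; field_simp; ring
    rw [abs_le]
    constructor <;> linarith

lemma small_shrink {n m L : ℕ} (hL : 0 < L) (c : ℝ)
    (I : Finset (Fin ((m + 2) * L) × K n)) (hI : I.card ≤ m) :
    AdmitsShrinking I (pp n ((m + 2) * L) (1 / sin (π - π / (m + 2 : ℕ)) - 1) c)
      (qq n ((m + 2) * L) c) := by
  classical
  have hlt : ∀ a : Fin ((m + 2) * L) × K n, (a.1 : ℕ) / L < m + 2 := fun a =>
    Nat.div_lt_of_lt_mul (lt_of_lt_of_eq a.1.2 (mul_comm _ _))
  let f : Fin ((m + 2) * L) × K n → Fin (m + 2) := fun a => ⟨(a.1 : ℕ) / L, hlt a⟩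
  have hcard : (I.image f).card < (Finset.univ : Finset (Fin (m + 2))).card := by
    have := Finset.card_image_le (s := I) (f := f)
    rw [Finset.card_univ, Fintype.card_fin]
    omega
  obtain ⟨j, -, hj⟩ := Finset.exists_mem_notMem_of_card_lt_card hcard
  apply sub_shrink (j := j) (by omega) hL j.2 c I
  intro a ha h
  apply hj
  rw [Finset.mem_image]
  exact ⟨a, ha, Fin.ext h⟩


/-! ### The obstruction -/

lemma pt_sub (r θ r' θ' : ℝ) {n : ℕ} (v v' : Fin n → ℝ) (i : Fin (n + 2)) :
    (pt r θ v - pt r' θ' v') i = (pt r θ v) i - (pt r' θ' v') i := rfl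

lemma ext_coords {n : ℕ} {x y : EuclideanSpace ℝ (Fin (n + 2))}
    (h0 : x (Fin.castSucc (0 : Fin (n + 1))) = y (Fin.castSucc (0 : Fin (n + 1))))
    (h1 : x (Fin.last (n + 1)) = y (Fin.last (n + 1)))
    (h2 : ∀ i : Fin n, x (Fin.castSucc i.succ) = y (Fin.castSucc i.succ)) : x = y := by
  ext i
  refine Fin.lastCases h1 (fun i => ?_) i
  exact Fin.cases h0 h2 i

lemma tip_sub_hub {n : ℕ} (r θ : ℝ) :
    pt (r + 1) θ (0 : Fin n → ℝ) - pt (r + 0) θ (0 : Fin n → ℝ) = pt 1 θ 0 := by
  apply ext_coords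
  · rw [pt_sub, pt_zero, pt_zero, pt_zero]; ring
  · rw [pt_sub, pt_last, pt_last, pt_last]; ring
  · intro i
    rw [pt_sub, pt_mid, pt_mid, pt_mid]; simp

lemma frame_sub_hub {n : ℕ} (r θ c : ℝ) (hc : c ≠ 0) (i : Fin n) :
    (1 / c) • (pt (r + 0) θ (Pi.single i c) - pt (r + 0) θ (0 : Fin n → ℝ)) =
      pt 0 0 (Pi.single i 1) := by
  apply ext_coords
  · rw [PiLp.smul_apply, pt_sub, pt_zero, pt_zero, pt_zero]; simp
  · rw [PiLp.smul_apply, pt_sub, pt_last, pt_last, pt_last]; simp
  · intro j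
    rw [PiLp.smul_apply, pt_sub, pt_mid, pt_mid, pt_mid]
    by_cases h : j = i
    · subst h; simp; field_simp
    · simp [h]

/-- In the standard frame the plane coordinate of the direction `θ` is `exp (iθ)`. -/
lemma zc_std {n : ℕ} (θ : ℝ) :
    zc (Fin.cons (pt 1 0 (0 : Fin n → ℝ)) fun i : Fin n => pt 0 0 (Pi.single i 1)) (pt 1 θ 0) =
      Complex.exp (θ * Complex.I) := by
  have hdet : (frm (Fin.cons (pt 1 0 (0 : Fin n → ℝ)) fun i : Fin n => pt 0 0 (Pi.single i 1))
      (pt 1 θ 0)).det = sin θ := by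
    have hl : ee n (Sum.inr 0) = Fin.last (n + 1) := rfl
    have hc : ∀ b : Fin (n + 1), ee n (Sum.inl b) = Fin.castSucc b := fun b => rfl
    have : frm (Fin.cons (pt 1 0 (0 : Fin n → ℝ)) fun i : Fin n => pt 0 0 (Pi.single i 1))
        (pt 1 θ 0) = Matrix.fromBlocks 1 0
          (Matrix.of fun _ b => (pt 1 θ (0 : Fin n → ℝ)) (Fin.castSucc b))
          (Matrix.of fun _ _ => sin θ) := by
      ext a b
      rcases a with a | a <;> rcases b with b | b
      · simp only [frm, Matrix.of_apply, Sum.elim_inl, Matrix.fromBlocks_apply₁₁, hc]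
        refine Fin.cases ?_ (fun a => ?_) a <;> refine Fin.cases ?_ (fun b => ?_) b
        · rw [Fin.cons_zero, pt_zero]; simp
        · rw [Fin.cons_zero, pt_mid, Matrix.one_apply_ne (Fin.succ_ne_zero b).symm]; simp
        · rw [Fin.cons_succ, pt_zero, Matrix.one_apply_ne (Fin.succ_ne_zero a)]; simp
        · rw [Fin.cons_succ, pt_mid, Matrix.one_apply]
          simp only [Pi.single_apply, Fin.succ_inj]
          by_cases h : a = b
          · subst h; simp
          · simp [h, Ne.symm h]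
      · have : b = 0 := Subsingleton.elim _ _
        subst this
        simp only [frm, Matrix.of_apply, Sum.elim_inl, Matrix.fromBlocks_apply₁₂, hl]
        refine Fin.cases ?_ (fun a => ?_) a
        · rw [Fin.cons_zero, pt_last]; simp
        · rw [Fin.cons_succ, pt_last]; simp
      · simp only [frm, Matrix.of_apply, Sum.elim_inr, Matrix.fromBlocks_apply₂₁, hc]
      · have : b = 0 := Subsingleton.elim _ _
        subst this
        simp only [frm, Matrix.of_apply, Sum.elim_inr, Matrix.fromBlocks_apply₂₂, hl]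
        rw [pt_last]; simp
    rw [this, Matrix.det_fromBlocks_zero₁₂, Matrix.det_one, Matrix.det_unique]
    simp
  have hin : ⟪(Fin.cons (pt 1 0 (0 : Fin n → ℝ)) fun i : Fin n => pt 0 0 (Pi.single i 1) :
      Fin (n + 1) → EuclideanSpace ℝ (Fin (n + 2))) 0, pt 1 θ 0⟫ = cos θ := by
    rw [Fin.cons_zero, PiLp.inner_apply, Fin.sum_univ_castSucc, Fin.sum_univ_succ]
    simp only [pt_last, pt_zero, pt_mid]
    simp
  unfold zc
  rw [hdet, hin]
  apply Complex.ext
  · rw [Complex.exp_ofReal_mul_I_re]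
  · rw [Complex.exp_ofReal_mul_I_im]

/-- Squared distance between two points of one unit. -/
noncomputable def gg {n : ℕ} (c : ℝ) (κ κ' : K n) : ℝ :=
  (kap κ - kap κ') ^ 2 + ∑ i, (vert c κ i - vert c κ' i) ^ 2

lemma gg_nonneg {n : ℕ} (c : ℝ) (κ κ' : K n) : 0 ≤ gg c κ κ' := by
  unfold gg; positivity

lemma dist_pp_same {n N : ℕ} (R c : ℝ) (k : Fin N) (κ κ' : K n) :
    dist (pp n N R c (k, κ)) (pp n N R c (k, κ')) = √(gg c κ κ') := by
  unfold pp gg
  rw [dist_pt]
  congr 1
  simp only [sub_self, zero_div, sin_zero]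
  ring

lemma dist_qq_same {n N : ℕ} (c : ℝ) (k : Fin N) (κ κ' : K n) :
    dist (qq n N c (k, κ)) (qq n N c (k, κ')) = √(gg c κ κ') := by
  unfold qq gg
  rw [dist_pt]
  congr 1
  simp only [sub_self, zero_div, sin_zero]
  ring

lemma gg_tip_hub {n : ℕ} (c : ℝ) : gg c (some none : K n) none = 1 := by
  simp [gg, kap, vert]

lemma gg_hub_hub {n : ℕ} (c : ℝ) : gg c (none : K n) none = 0 := by
  simp [gg]

lemma gg_self {n : ℕ} (c : ℝ) (κ : K n) : gg c κ κ = 0 := by
  simp [gg]

lemma gg_frame_hub {n : ℕ} (c : ℝ) (i : Fin n) : gg c (some (some i) : K n) none = c ^ 2 := by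
  simp [gg, kap, vert, Pi.single_apply]

lemma gg_frame_tip {n : ℕ} (c : ℝ) (i : Fin n) :
    gg c (some (some i) : K n) (some none) = 1 + c ^ 2 := by
  simp [gg, kap, vert, Pi.single_apply]

lemma gg_frame_frame {n : ℕ} (c : ℝ) {i j : Fin n} (h : i ≠ j) :
    gg c (some (some i) : K n) (some (some j)) = c ^ 2 + c ^ 2 := by
  simp only [gg, kap, vert, Pi.single_apply]
  have : ∀ l : Fin n, ((if l = i then c else 0) - (if l = j then c else 0)) ^ 2 =
      (if l = i then c ^ 2 else 0) + (if l = j then c ^ 2 else 0) := by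
    intro l
    by_cases h1 : l = i
    · have h2 : l ≠ j := by rintro rfl; exact h h1.symm
      rw [if_pos h1, if_neg h2, if_pos h1, if_neg h2]; ring
    · by_cases h2 : l = j
      · rw [if_neg h1, if_pos h2, if_neg h1, if_pos h2]; ring
      · rw [if_neg h1, if_neg h2, if_neg h1, if_neg h2]; ring
  rw [Finset.sum_congr rfl fun l _ => this l, Finset.sum_add_distrib]
  simp

lemma fin_succ_cases {N : ℕ} [NeZero N] (hN : 2 ≤ N) (k : Fin N) :
    (((k + 1 : Fin N) : ℕ) = k + 1) ∨ (((k + 1 : Fin N) : ℕ) = 0 ∧ (k : ℕ) + 1 = N) := by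
  have h1 : ((1 : Fin N) : ℕ) = 1 := by
    rw [Fin.val_one']
    exact Nat.mod_eq_of_lt (by omega)
  rw [Fin.val_add, h1]
  have := k.2
  rcases Nat.lt_or_ge ((k : ℕ) + 1) N with h | h
  · left; exact Nat.mod_eq_of_lt h
  · right
    have : (k : ℕ) + 1 = N := by omega
    rw [this]
    exact ⟨Nat.mod_self N, rfl⟩

lemma sin_step {N : ℕ} [NeZero N] (hN : 2 ≤ N) (k : Fin N) :
    |sin ((2 * π * ((k + 1 : Fin N) : ℕ) / N - 2 * π * (k : ℕ) / N) / 2)| ≤ π / N := by
  have hpi := Real.pi_pos
  have hNpos : (0 : ℝ) < N := by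
    have : 0 < N := by omega
    exact_mod_cast this
  have hnn : 0 ≤ π / N := by positivity
  rcases fin_succ_cases hN k with h | ⟨h, h'⟩
  · rw [h]
    have e : (2 * π * ((k + 1 : ℕ) : ℝ) / N - 2 * π * (k : ℕ) / N) / 2 = π / N := by
      push_cast; field_simp; ring
    rw [e]
    exact (Real.abs_sin_le_abs).trans (abs_of_nonneg hnn).le
  · rw [h]
    have hk : ((k : ℕ) : ℝ) = N - 1 := by
      have : ((k : ℕ) : ℝ) + 1 = N := by exact_mod_cast h'
      linarith
    have e : (2 * π * ((0 : ℕ) : ℝ) / N - 2 * π * (k : ℕ) / N) / 2 = -(π - π / N) := by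
      rw [hk]; push_cast; field_simp; ring
    rw [e, sin_neg, sin_pi_sub, abs_neg]
    exact (Real.abs_sin_le_abs).trans (abs_of_nonneg hnn).le

lemma exp_step {N : ℕ} [NeZero N] (hN : 2 ≤ N) (k : Fin N) :
    Complex.exp ((2 * π * ((k + 1 : Fin N) : ℕ) / N : ℝ) * Complex.I) =
      Complex.exp ((2 * π * (k : ℕ) / N : ℝ) * Complex.I) *
        Complex.exp ((2 * π / N : ℝ) * Complex.I) := by
  have hNpos : (0 : ℝ) < N := by
    have : 0 < N := by omega
    exact_mod_cast this
  rw [← Complex.exp_add, ← add_mul, ← Complex.ofReal_add]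
  rcases fin_succ_cases hN k with h | ⟨h, h'⟩
  · rw [h]
    congr 3
    push_cast; field_simp
  · rw [h]
    have hk : ((k : ℕ) : ℝ) = N - 1 := by
      have : ((k : ℕ) : ℝ) + 1 = N := by exact_mod_cast h'
      linarith
    have e : (2 * π * (k : ℕ) / N + 2 * π / N : ℝ) = 2 * π := by
      rw [hk]; field_simp; ring
    rw [e]
    simp

lemma no_shrink {n N : ℕ} (hN : 2 ≤ N) {R c : ℝ} (hR : 0 ≤ R) (hc : 8 * R * (n + 1) + 1 ≤ c)
    (hNR : (4 * R + 2) * π * 2 < N) :
    ¬ AdmitsShrinking Finset.univ (pp n N R c) (qq n N c) := by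
  rintro ⟨x, hx1, hx2⟩
  have : NeZero N := ⟨by omega⟩
  have hpi := Real.pi_pos
  have hNpos : (0 : ℝ) < N := by
    have : 0 < N := by omega
    exact_mod_cast this
  have hcpos : 0 < c := by
    have : 0 ≤ 8 * R * (n + 1) := by positivity
    linarith
  have hx0 : ∀ a, x a 0 = pp n N R c a := fun a => (hx1 a (Finset.mem_univ _)).2.1
  have hx1' : ∀ a, x a 1 = qq n N c a := fun a => (hx1 a (Finset.mem_univ _)).2.2
  have hxc : ∀ a, Continuous (x a) := fun a => (hx1 a (Finset.mem_univ _)).1
  have hle : ∀ a b t, dist (x a t) (x b t) ≤ dist (pp n N R c a) (pp n N R c b) := by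
    intro a b t
    have := hx2 a (Finset.mem_univ _) b (Finset.mem_univ _) (unitInterval.nonneg' (t := t))
    simpa only [hx0] using this
  have hge : ∀ a b t, dist (qq n N c a) (qq n N c b) ≤ dist (x a t) (x b t) := by
    intro a b t
    have := hx2 a (Finset.mem_univ _) b (Finset.mem_univ _) (unitInterval.le_one' (t := t))
    simpa only [hx1'] using this
  -- each unit is rigid
  have hrig : ∀ k κ κ' t, dist (x (k, κ) t) (x (k, κ') t) ^ 2 = gg c κ κ' := by
    intro k κ κ' t
    have h1 := hle (k, κ) (k, κ') t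
    have h2 := hge (k, κ) (k, κ') t
    rw [dist_pp_same] at h1
    rw [dist_qq_same] at h2
    rw [le_antisymm h1 h2, Real.sq_sqrt (gg_nonneg _ _ _)]
  set D : Fin N → K n → unitInterval → EuclideanSpace ℝ (Fin (n + 2)) :=
    fun k κ t => x (k, κ) t - x (k, none) t with hD
  have hDin : ∀ k κ κ' t, ⟪D k κ t, D k κ' t⟫ =
      (gg c κ none + gg c κ' none - gg c κ κ') / 2 := by
    intro k κ κ' t
    have e : D k κ t - D k κ' t = x (k, κ) t - x (k, κ') t := by
      simp only [hD]; abel
    rw [real_inner_eq_norm_mul_self_add_norm_mul_self_sub_norm_sub_mul_self_div_two, e]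
    have h1 := hrig k κ none t
    have h2 := hrig k κ' none t
    have h3 := hrig k κ κ' t
    rw [dist_eq_norm] at h1 h2 h3
    rw [← h1, ← h2, ← h3]
    simp only [hD]
    ring
  -- the tip vector and the frame vectors
  set e : Fin N → unitInterval → EuclideanSpace ℝ (Fin (n + 2)) :=
    fun k t => D k (some none) t with he
  set F : Fin N → Fin n → unitInterval → EuclideanSpace ℝ (Fin (n + 2)) :=
    fun k i t => (1 / c) • D k (some (some i)) t with hF
  have hee : ∀ k t, ⟪e k t, e k t⟫ = 1 := by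
    intro k t
    simp only [he]
    rw [hDin, gg_tip_hub, gg_self]; ring
  have hen : ∀ k t, ‖e k t‖ = 1 := by
    intro k t
    have := hee k t
    rw [real_inner_self_eq_norm_sq] at this
    nlinarith [norm_nonneg (e k t)]
  have heF : ∀ k i t, ⟪e k t, F k i t⟫ = 0 := by
    intro k i t
    simp only [he, hF]
    rw [inner_smul_right, real_inner_comm, hDin, gg_tip_hub, gg_frame_hub, gg_frame_tip]
    ring
  have hFF : ∀ k i t, ⟪F k i t, F k i t⟫ = 1 := by
    intro k i t
    simp only [hF]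
    rw [inner_smul_right, inner_smul_left, hDin, gg_frame_hub, gg_self]
    simp only [conj_trivial]
    field_simp
    ring
  have hFF' : ∀ k i j t, i ≠ j → ⟪F k i t, F k j t⟫ = 0 := by
    intro k i j t hij
    simp only [hF]
    rw [inner_smul_right, inner_smul_left, hDin, gg_frame_hub, gg_frame_hub, gg_frame_frame c hij]
    ring
  set u : unitInterval → Fin (n + 1) → EuclideanSpace ℝ (Fin (n + 2)) :=
    fun t => Fin.cons (e 0 t) fun i => F 0 i t with hu
  have hon : ∀ t, Orthonormal ℝ (u t) := by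
    intro t
    rw [orthonormal_iff_ite]
    intro i j
    simp only [hu]
    refine Fin.cases ?_ (fun i => ?_) i <;> refine Fin.cases ?_ (fun j => ?_) j
    · rw [Fin.cons_zero, if_pos rfl, hee]
    · rw [Fin.cons_zero, Fin.cons_succ, if_neg (Fin.succ_ne_zero j).symm, heF]
    · rw [Fin.cons_zero, Fin.cons_succ, if_neg (Fin.succ_ne_zero i), real_inner_comm, heF]
    · rw [Fin.cons_succ, Fin.cons_succ]
      by_cases h : i = j
      · subst h; rw [if_pos rfl, hFF]
      · rw [if_neg (fun h' => h (Fin.succ_injective _ h')), hFF' _ _ _ _ h]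
  -- distances between units
  have hpp : ∀ k l : Fin N, ∀ κ : K n, kap κ = 0 →
      dist (pp n N R c (k, κ)) (pp n N R c (l, κ)) ≤ 2 * R := by
    intro k l κ hκ
    unfold pp
    rw [dist_pt]
    apply Real.sqrt_le_iff.mpr
    refine ⟨by linarith, ?_⟩
    simp only [sub_self, hκ]
    have := Real.sin_sq_le_one ((2 * π * k / N - 2 * π * l / N) / 2)
    simp only [Finset.sum_const_zero, ne_eq, OfNat.ofNat_ne_zero, not_false_eq_true, zero_pow]
    nlinarith [mul_nonneg hR hR]
  have hFdiff : ∀ k i t, ‖F 0 i t - F k i t‖ ≤ 4 * R / c := by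
    intro k i t
    simp only [hF, hD]
    rw [← smul_sub, norm_smul, Real.norm_of_nonneg (by positivity), one_div, inv_mul_le_iff₀ hcpos]
    have e1 : x (0, some (some i)) t - x (0, none) t - (x (k, some (some i)) t - x (k, none) t) =
        (x (0, some (some i)) t - x (k, some (some i)) t) - (x (0, none) t - x (k, none) t) := by
      abel
    rw [e1]
    have h1 := (hle (0, some (some i)) (k, some (some i)) t).trans (hpp 0 k _ rfl)
    have h2 := (hle (0, none) (k, none) t).trans (hpp 0 k _ rfl)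
    rw [dist_eq_norm] at h1 h2
    refine (norm_sub_le _ _).trans ?_
    have : c * (4 * R / c) = 4 * R := by field_simp
    rw [this]
    linarith
  -- the plane coordinate of the tip vectors
  have hdn : 4 * R / c ≤ 1 / (2 * (n + 1)) := by
    rw [div_le_div_iff₀ hcpos (by positivity)]
    linarith
  have hz1 : ∀ k t, 1 / 2 < ‖zc (u t) (e k t)‖ := by
    intro k t
    have h1 := zc_norm_sq (u t) (hon t) (e k t)
    rw [hen] at h1
    have h2 : ∑ i : Fin n, ⟪u t i.succ, e k t⟫ ^ 2 ≤ 1 / 4 := by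
      have h3 : ∀ i : Fin n, ⟪u t i.succ, e k t⟫ ^ 2 ≤ (1 / (2 * ((n : ℝ) + 1))) ^ 2 := by
        intro i
        have h4 : ⟪u t i.succ, e k t⟫ = ⟪F 0 i t - F k i t, e k t⟫ := by
          simp only [hu, Fin.cons_succ]
          rw [inner_sub_left, real_inner_comm (e k t) (F k i t), heF, sub_zero]
        rw [h4]
        have h5 := abs_real_inner_le_norm (F 0 i t - F k i t) (e k t)
        rw [hen, mul_one] at h5
        exact sq_le_sq' (by linarith [(abs_le.mp (h5.trans ((hFdiff k i t).trans hdn))).1])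
          ((abs_le.mp (h5.trans ((hFdiff k i t).trans hdn))).2)
      refine (Finset.sum_le_sum fun i _ => h3 i).trans ?_
      rw [Finset.sum_const, Finset.card_univ, Fintype.card_fin, nsmul_eq_mul, div_pow, one_pow,
        mul_one_div, div_le_div_iff₀ (by positivity) (by norm_num)]
      have : (0 : ℝ) ≤ n := Nat.cast_nonneg n
      nlinarith
    by_contra hcon
    push Not at hcon
    have : ‖zc (u t) (e k t)‖ ^ 2 ≤ (1 / 2) ^ 2 :=
      pow_le_pow_left₀ (norm_nonneg _) hcon 2
    rw [h1] at this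
    norm_num at this
    linarith
  have hstep : ∀ (k : Fin N) (κ : K n), dist (pp n N R c (k + 1, κ)) (pp n N R c (k, κ)) ≤
      2 * (R + kap κ) * (π / N) := by
    intro k κ
    have hk0 : 0 ≤ R + kap κ := by
      rcases kap_cases κ with h | h <;> rw [h] <;> linarith
    unfold pp
    rw [dist_pt]
    apply Real.sqrt_le_iff.mpr
    refine ⟨by positivity, ?_⟩
    have h1 := sin_step hN k
    have h2 : sin ((2 * π * ((k + 1 : Fin N) : ℕ) / N - 2 * π * (k : ℕ) / N) / 2) ^ 2 ≤
        (π / N) ^ 2 := by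
      rw [← sq_abs]
      exact pow_le_pow_left₀ (abs_nonneg _) h1 2
    simp only [sub_self, Finset.sum_const_zero, ne_eq, OfNat.ofNat_ne_zero, not_false_eq_true,
      zero_pow]
    have h3 := mul_le_mul_of_nonneg_left h2 (by positivity : 0 ≤ 4 * ((R + kap κ) * (R + kap κ)))
    nlinarith
  have hclose : ∀ k t, ‖zc (u t) (e (k + 1) t) - zc (u t) (e k t)‖ < ‖zc (u t) (e k t)‖ := by
    intro k t
    refine lt_of_le_of_lt ?_ (hz1 k t)
    rw [← zc_sub]
    refine (zc_norm_le (u t) (hon t) _).trans ?_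
    have e1 : e (k + 1) t - e k t = (x (k + 1, some none) t - x (k, some none) t) -
        (x (k + 1, none) t - x (k, none) t) := by
      simp only [he, hD]; abel
    rw [e1]
    refine (norm_sub_le _ _).trans ?_
    have h1 := (hle (k + 1, some none) (k, some none) t).trans (hstep k _)
    have h2 := (hle (k + 1, none) (k, none) t).trans (hstep k _)
    rw [dist_eq_norm] at h1 h2
    simp only [kap] at h1 h2
    have h3 : 2 * (R + 1) * (π / N) + 2 * (R + 0) * (π / N) ≤ 1 / 2 := by
      have : 2 * (R + 1) * (π / N) + 2 * (R + 0) * (π / N) = (4 * R + 2) * π / N := by ring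
      rw [this, div_le_div_iff₀ hNpos (by norm_num)]
      linarith
    linarith
  refine winding (fun k t => zc (u t) (e k t)) ?_ hclose ?_ hN ?_
  · intro k
    have hDc : ∀ k κ, Continuous (D k κ) := fun k κ => (hxc _).sub (hxc _)
    apply zc_continuous
    · intro i
      refine Fin.cases ?_ (fun i => ?_) i
      · exact hDc 0 _
      · exact (hDc 0 _).const_smul (1 / c)
    · exact hDc k _
  · have hu0 : u 0 = Fin.cons (pt 1 0 (0 : Fin n → ℝ)) fun i : Fin n => pt 0 0 (Pi.single i 1) := by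
      simp only [hu, he, hF, hD, hx0]
      funext i
      refine Fin.cases ?_ (fun i => ?_) i
      · rw [Fin.cons_zero, Fin.cons_zero]
        have := tip_sub_hub (n := n) R (2 * π * ((0 : Fin N) : ℕ) / N)
        simp only [pp, kap, vert]
        rw [this]
        simp
      · rw [Fin.cons_succ, Fin.cons_succ]
        exact frame_sub_hub R _ c hcpos.ne' i
    have he0 : ∀ k : Fin N, e k 0 = pt 1 (2 * π * (k : ℕ) / N) 0 := by
      intro k
      simp only [he, hD, hx0]
      exact tip_sub_hub R _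
    intro k
    simp only [hu0, he0, zc_std]
    exact exp_step hN k
  · intro k
    have : ∀ k : Fin N, e k 1 = pt (0 + 1) 0 0 - pt (0 + 0) 0 0 := by
      intro k
      simp only [he, hD, hx1', qq, kap, vert, zero_add]
    simp only [this]

/-- **No Helly number for continuous shrinkings exists in any dimension `d ≥ 2`.** -/
theorem no_helly_number (d : ℕ) (hd : 2 ≤ d) : ¬ ∃ m : ℕ, IsHellyNumber d m := by
  rintro ⟨m, hm⟩
  obtain ⟨n, rfl⟩ : ∃ n, d = n + 2 := ⟨d - 2, by omega⟩
  obtain ⟨R, hRdef⟩ : ∃ R, R = 1 / sin (π - π / (m + 2 : ℕ)) - 1 := ⟨_, rfl⟩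
  have hpi := Real.pi_pos
  have hm2 : (2 : ℝ) ≤ (m + 2 : ℕ) := by push_cast; linarith [(Nat.cast_nonneg m : (0 : ℝ) ≤ m)]
  have hs0 : 0 < sin (π - π / (m + 2 : ℕ)) := by
    apply sin_pos_of_pos_of_lt_pi
    · have : π / (m + 2 : ℕ) < π := by
        rw [div_lt_iff₀ (by linarith)]; nlinarith
      linarith
    · have : 0 < π / (m + 2 : ℕ) := by positivity
      linarith
  have hR : 0 ≤ R := by
    rw [hRdef]
    have := Real.sin_le_one (π - π / (m + 2 : ℕ))
    have h1 : 1 ≤ 1 / sin (π - π / (m + 2 : ℕ)) := by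
      rw [le_div_iff₀ hs0]; linarith
    linarith
  obtain ⟨L, hL⟩ := exists_nat_gt ((4 * R + 2) * π * 2)
  have hLpos : 0 < L := by
    have : (0 : ℝ) < L := lt_of_le_of_lt (by positivity) hL
    exact_mod_cast this
  have hN2 : 2 ≤ (m + 2) * L := by nlinarith
  have hNR : (4 * R + 2) * π * 2 < (((m + 2) * L : ℕ) : ℝ) := by
    refine lt_of_lt_of_le hL ?_
    have : L ≤ (m + 2) * L := by nlinarith
    exact_mod_cast this
  refine no_shrink (n := n) hN2 hR (c := 8 * R * (n + 1) + 1) le_rfl hNR ?_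
  apply hm.general
  intro I hI
  rw [hRdef]
  exact small_shrink hLpos _ I hI

end Pool.Agent.H29.Shrink
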